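import Pool.Agent.W569.UH.Arith

/-! Characters of the absolute Galois group of `ℚ(ζ_p)` in a given eigenspace. -/

set_option autoImplicit false

namespace Pool.Agent.K1H81.LR

open Matrix NumberField IsLocalRing Pool.Agent.W569.FM Pool.Agent.W569.UF Pool.Agent.W569.UH

/-- `ℚ(ζ_p)` has no everywhere unramified cyclic extension of degree `p` on whose Galois group the Galois group of `ℚ(ζ_p)`
acts by `ω ^ (b - a)` -/
def NoUnrC (p a b : ℕ) : Prop :=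
  ∀ f : HH p →* Multiplicative (ZMod p), IsOpen (f.ker : Set (HH p)) →
    (∀ P : Ideal (OO ℚ), P.IsMaximal → ∀ τ : HH p, InInertia P (τ : GF ℚ) → f τ = 1) →
    (∀ (m : ℕ) (g : GF ℚ), (∀ z : AlgebraicClosure ℚ, z ^ p = 1 → g z = z ^ m) →
      ∀ h : HH p, f (MulAut.conjNormal g h) ^ m ^ a = f h ^ m ^ b) → ∀ g, f g = 1

theorem pow_congr {p : ℕ} [Fact p.Prime] {x : Multiplicative (ZMod p)} {a b : ℕ} (h : (a : ZMod p) = b) :
    x ^ a = x ^ b := by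
  apply Multiplicative.toAdd.injective
  rw [toAdd_pow, toAdd_pow, nsmul_eq_mul, nsmul_eq_mul, h]

/-- an exponent by which an automorphism acts on the roots of unity is prime to `p` -/
theorem exp_ne_zero {p m : ℕ} (hp : p.Prime) {g : GF ℚ} (hg : ∀ z : AlgebraicClosure ℚ, z ^ p = 1 → g z = z ^ m) :
    (m : ZMod p) ≠ 0 := by
  intro h
  have h1 : p ∣ m := (ZMod.natCast_eq_zero_iff m p).1 h
  have : NeZero p := ⟨hp.ne_zero⟩
  obtain ⟨ζ, hζ⟩ := HasEnoughRootsOfUnity.exists_primitiveRoot (AlgebraicClosure ℚ) p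
  have h2 := hg ζ hζ.pow_eq_one
  obtain ⟨k, rfl⟩ := h1
  rw [pow_mul, hζ.pow_eq_one, one_pow, ← map_one g] at h2
  exact hζ.ne_one hp.one_lt (g.injective h2)

section
variable {p c a b m0 : ℕ} {γ : GF ℚ}

/-- the action of all automorphisms on an eigenvector of `γ` -/
theorem eigen_all (hp : p.Prime) (hc : ∀ m : ℕ, (m : ZMod p) ≠ 0 → ∃ k : ℕ, (c : ZMod p) ^ k = m)
    (hm0 : (m0 : ZMod p) * (c : ZMod p) ^ a = (c : ZMod p) ^ b)
    (hγ : ∀ z : AlgebraicClosure ℚ, z ^ p = 1 → γ z = z ^ c) (f : HH p →* Multiplicative (ZMod p))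
    (h3 : ∀ g, f (MulAut.conjNormal γ g) = f g ^ m0) (m : ℕ) (g : GF ℚ)
    (hg : ∀ z : AlgebraicClosure ℚ, z ^ p = 1 → g z = z ^ m) (h : HH p) :
    f (MulAut.conjNormal g h) ^ m ^ a = f h ^ m ^ b := by
  have : Fact p.Prime := ⟨hp⟩
  obtain ⟨k, hk⟩ := hc m (exp_ne_zero hp hg)
  -- powers of `γ`
  have h4 : ∀ (j : ℕ) (x : HH p), f (MulAut.conjNormal (γ ^ j) x) = f x ^ m0 ^ j := by
    intro j
    induction j with
    | zero => intro x; rw [pow_zero, pow_zero, map_one, MulAut.one_apply, pow_one]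
    | succ j ih =>
      intro x
      rw [pow_succ', map_mul, MulAut.mul_apply, h3, ih, ← pow_mul, pow_succ]
  have h5 : ∀ (j : ℕ) (z : AlgebraicClosure ℚ), z ^ p = 1 → (γ ^ j) z = z ^ c ^ j := by
    intro j
    induction j with
    | zero => intro z _; rw [pow_zero, pow_zero, pow_one]; rfl
    | succ j ih =>
      intro z hz
      rw [pow_succ']
      show γ ((γ ^ j) z) = _
      rw [ih z hz, hγ _ (by rw [← pow_mul, mul_comm, pow_mul, hz, one_pow]), ← pow_mul, pow_succ]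
  have h6 : g * (γ ^ k)⁻¹ ∈ HH p := by
    rw [mem_HH]
    intro z hz
    obtain ⟨w, hw⟩ : ∃ w, w = (γ ^ k)⁻¹ z := ⟨_, rfl⟩
    have hw1 : w ^ p = 1 := by rw [hw, ← map_pow, hz, map_one]
    have hw2 : (γ ^ k) w = z := by
      rw [hw]
      show ((γ ^ k) * (γ ^ k)⁻¹) z = z
      rw [mul_inv_cancel]
      rfl
    show g ((γ ^ k)⁻¹ z) = z
    rw [← hw, hg w hw1, ← hw2, h5 k w hw1]
    refine pow_eq_of_modEq hw1 ?_
    push_cast
    exact hk.symm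
  have h7 : MulAut.conjNormal g h = ⟨g * (γ ^ k)⁻¹, h6⟩ * MulAut.conjNormal (γ ^ k) h * ⟨g * (γ ^ k)⁻¹, h6⟩⁻¹ := by
    apply Subtype.ext
    rw [MulAut.conjNormal_apply]
    show g * h * g⁻¹ = g * (γ ^ k)⁻¹ * (MulAut.conjNormal (γ ^ k) h : HH p) * (g * (γ ^ k)⁻¹)⁻¹
    rw [MulAut.conjNormal_apply]
    group
  rw [h7, map_mul, map_mul, map_inv, mul_comm (f ⟨g * (γ ^ k)⁻¹, h6⟩), mul_inv_cancel_right, h4, ← pow_mul]
  apply pow_congr
  push_cast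
  rw [← hk, ← pow_mul, ← pow_mul, mul_comm k a, pow_mul, ← mul_pow, hm0, ← pow_mul, mul_comm b k]

/-- **Vanishing of characters.** -/
theorem arith2 (hT : S_TAMEN) (hF : S_FROBP) (hZ : S_ZETA) (hFR : S_FROB) (hI : S_INERT)
    (hp : p.Prime) (hreg : NoUnrC p a b) {S : Set ℕ}
    (hS : ∀ q ∈ S, q.Prime ∧ q ≠ p ∧ (q : ZMod p) ^ b ≠ (q : ZMod p) ^ (a + 1))
    (hc : ∀ m : ℕ, (m : ZMod p) ≠ 0 → ∃ k : ℕ, (c : ZMod p) ^ k = m)
    (hm0 : (m0 : ZMod p) * (c : ZMod p) ^ a = (c : ZMod p) ^ b)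
    (hγ : ∀ z : AlgebraicClosure ℚ, z ^ p = 1 → γ z = z ^ c) {P : Ideal (OO ℚ)}
    (hP : P.IsMaximal) (hpP : (p : OO ℚ) ∈ P) (f : HH p →* Multiplicative (ZMod p))
    (hf : IsOpen (f.ker : Set (HH p)))
    (h1 : ∀ P' : Ideal (OO ℚ), P'.IsMaximal → (p : OO ℚ) ∉ P' → (∀ q ∈ S, (q : OO ℚ) ∉ P') →
      ∀ τ : HH p, InInertia P' (τ : GF ℚ) → f τ = 1)
    (h2 : ∀ τ : HH p, InInertia P (τ : GF ℚ) → f τ = 1)
    (h3 : ∀ g, f (MulAut.conjNormal γ g) = f g ^ m0) (g : HH p) : f g = 1 := by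
  have : Fact p.Prime := ⟨hp⟩
  have hall := eigen_all hp hc hm0 hγ f h3
  refine hreg f hf (fun P' hP' τ hτ => ?_) hall g
  by_cases hpP' : (p : OO ℚ) ∈ P'
  · obtain ⟨σ, hσ⟩ := (hFR p hp).2 P P' hP hP' hpP hpP'
    obtain ⟨t, ht, hth⟩ := hI p hp P hP hpP σ
    -- `σ = h t` with `h` in `HH p` and `t` in the inertia group at `P`
    have hh : σ * t⁻¹ ∈ HH p := by
      have h4 := (normal_HH p).conj_mem _ hth t
      have h5 : t * (t⁻¹ * σ) * t⁻¹ = σ * t⁻¹ := by group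
      rw [h5] at h4
      exact h4
    have h6 : InInertia P (t * (σ⁻¹ * τ * σ) * t⁻¹) :=
      inInertia_mul (inInertia_mul ht (hσ _ hτ)) (inInertia_inv ht)
    have h7 : t * (σ⁻¹ * (τ : GF ℚ) * σ) * t⁻¹ =
        (((⟨σ * t⁻¹, hh⟩ : HH p)⁻¹ * τ * ⟨σ * t⁻¹, hh⟩ : HH p) : GF ℚ) := by
      show t * (σ⁻¹ * (τ : GF ℚ) * σ) * t⁻¹ = (σ * t⁻¹)⁻¹ * τ * (σ * t⁻¹)
      group
    rw [h7] at h6
    have h8 := h2 _ h6
    rw [map_mul, map_mul, map_inv, mul_comm _ (f τ), inv_mul_cancel_right] at h8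
    exact h8
  · by_cases hPS : ∀ q ∈ S, (q : OO ℚ) ∉ P'
    · exact h1 P' hP' hpP' hPS τ hτ
    · push Not at hPS
      obtain ⟨q, hq, hqP⟩ := hPS
      obtain ⟨hq1, hqp, hqN⟩ := hS q hq
      have hE : IsPGroup p (Multiplicative (ZMod p)) := by
        apply IsPGroup.of_card (n := 1)
        rw [Nat.card_congr Multiplicative.toAdd, Nat.card_zmod, pow_one]
      obtain ⟨φ, hφ⟩ := hF q hq1 P' hP' hqP
      have h4 := hT p q q hp hq1 hqp.symm hq1.pos (HH p) (isOpen_HH hp) _ hE f hf P' hP' hqP τ φ hτ hφ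
      have h5 := hall q φ (hZ.1 p q hp hq1 hqp.symm P' hP' hqP φ hφ) τ
      have h6 : MulAut.conjNormal φ τ = (⟨φ * τ * φ⁻¹, (normal_HH p).conj_mem τ τ.2 φ⟩ : HH p) := by
        apply Subtype.ext
        rw [MulAut.conjNormal_apply]
      rw [h6, h4, ← pow_mul] at h5
      have h7 : (((q * q ^ a : ℕ) : ZMod p) - ((q ^ b : ℕ) : ZMod p)) * Multiplicative.toAdd (f τ) = 0 := by
        have h8 := congrArg Multiplicative.toAdd h5
        rw [toAdd_pow, toAdd_pow, nsmul_eq_mul, nsmul_eq_mul] at h8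
        rw [sub_mul, h8, sub_self]
      rcases mul_eq_zero.1 h7 with h8 | h8
      · exfalso
        apply hqN
        rw [sub_eq_zero] at h8
        push_cast at h8
        rw [← h8, pow_succ, mul_comm]
      · exact Multiplicative.toAdd.injective h8

/-- the same for additive maps to elementary abelian `p`-groups -/
theorem arith2Q (hT : S_TAMEN) (hF : S_FROBP) (hZ : S_ZETA) (hFR : S_FROB) (hI : S_INERT)
    (hp : p.Prime) (hreg : NoUnrC p a b) {S : Set ℕ}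
    (hS : ∀ q ∈ S, q.Prime ∧ q ≠ p ∧ (q : ZMod p) ^ b ≠ (q : ZMod p) ^ (a + 1))
    (hc : ∀ m : ℕ, (m : ZMod p) ≠ 0 → ∃ k : ℕ, (c : ZMod p) ^ k = m)
    (hm0 : (m0 : ZMod p) * (c : ZMod p) ^ a = (c : ZMod p) ^ b)
    (hγ : ∀ z : AlgebraicClosure ℚ, z ^ p = 1 → γ z = z ^ c) {P : Ideal (OO ℚ)}
    (hP : P.IsMaximal) (hpP : (p : OO ℚ) ∈ P) {Q : Type} [AddCommGroup Q]
    (hQ : ∀ x : Q, p • x = 0) (Y : HH p → Q) (hY : ∀ g h, Y (g * h) = Y g + Y h)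
    (U : Subgroup (HH p)) (hU : IsOpen (U : Set (HH p))) (hYU : ∀ g ∈ U, Y g = 0)
    (h1 : ∀ P' : Ideal (OO ℚ), P'.IsMaximal → (p : OO ℚ) ∉ P' → (∀ q ∈ S, (q : OO ℚ) ∉ P') →
      ∀ τ : HH p, InInertia P' (τ : GF ℚ) → Y τ = 0)
    (h2 : ∀ τ : HH p, InInertia P (τ : GF ℚ) → Y τ = 0)
    (h3 : ∀ g, Y (MulAut.conjNormal γ g) = m0 • Y g) (g : HH p) : Y g = 0 := by
  refine Pool.Agent.W975.UF.sep_zmod' hp hQ _ fun l => ?_
  obtain ⟨f, hf, hfo, -⟩ := Pool.Agent.W975.UF.additive_map (Ur := ∅) (fun g => l (Y g))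
    (fun g h => by rw [hY, map_add]) U hU (fun g hg => by rw [hYU g hg, map_zero])
    (fun τ hτ => absurd hτ (Set.notMem_empty τ))
  have h4 := arith2 hT hF hZ hFR hI hp hreg hS hc hm0 hγ hP hpP f hfo
    (fun P' hP' hp' hS' τ hτ => by rw [hf, h1 P' hP' hp' hS' τ hτ, map_zero, ofAdd_zero])
    (fun τ hτ => by rw [hf, h2 τ hτ, map_zero, ofAdd_zero])
    (fun g => by rw [hf, hf, h3, map_nsmul, ofAdd_nsmul]) g
  rw [hf] at h4
  exact ofAdd_eq_one.1 h4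

end

end Pool.Agent.K1H81.LR
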