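import Pool.Agent.K1H81.LR.Main

/-! One diagonal block. -/

set_option autoImplicit false

namespace Pool.Agent.K1H81.LR

open Matrix NumberField IsLocalRing Polynomial Pool.Agent.W569.FM Pool.Agent.W569.UF Pool.Agent.W569.UG Pool.Agent.W569.UH

section
variable {A : Type} [CommRing A] {n : ℕ} (b : Fin n → ℤ) (l : ℤ)

/-- the diagonal block `l`, with zeros elsewhere -/
def blk0 (M : Matrix (Fin n) (Fin n) A) : Matrix (Fin n) (Fin n) A :=
  fun i j => if b i = l ∧ b j = l then M i j else 0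

/-- the diagonal block `l`, with the identity elsewhere -/
def blk (M : Matrix (Fin n) (Fin n) A) : Matrix (Fin n) (Fin n) A :=
  fun i j => if b i = l ∧ b j = l then M i j else (1 : Matrix (Fin n) (Fin n) A) i j

variable {b l}

theorem blk0_apply (M : Matrix (Fin n) (Fin n) A) (i j : Fin n) :
    blk0 b l M i j = if b i = l ∧ b j = l then M i j else 0 := rfl

theorem blk_apply (M : Matrix (Fin n) (Fin n) A) (i j : Fin n) :
    blk b l M i j = if b i = l ∧ b j = l then M i j else (1 : Matrix (Fin n) (Fin n) A) i j := rfl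

theorem blk_sub (M : Matrix (Fin n) (Fin n) A) : blk b l M - 1 = blk0 b l (M - 1) := by
  ext i j
  rw [Matrix.sub_apply, blk_apply, blk0_apply]
  by_cases h : b i = l ∧ b j = l
  · rw [if_pos h, if_pos h, Matrix.sub_apply]
  · rw [if_neg h, if_neg h, sub_self]

theorem blk_one : blk b l (1 : Matrix (Fin n) (Fin n) A) = 1 := by
  ext i j
  rw [blk_apply, ite_self]

theorem blk0_mul {M N : Matrix (Fin n) (Fin n) A} (hM : M.BlockTriangular b) (hN : N.BlockTriangular b) :
    blk0 b l (M * N) = blk0 b l M * blk0 b l N := by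
  ext i j
  rw [Matrix.mul_apply, blk0_apply]
  by_cases h : b i = l ∧ b j = l
  · rw [if_pos h, Matrix.mul_apply]
    refine Finset.sum_congr rfl fun k _ => ?_
    rw [blk0_apply, blk0_apply]
    by_cases hk : b k = l
    · rw [if_pos ⟨h.1, hk⟩, if_pos ⟨hk, h.2⟩]
    · rw [if_neg (fun h' => hk h'.2), zero_mul]
      rcases lt_or_gt_of_ne hk with h1 | h1
      · rw [hM (show b k < b i by rw [h.1]; exact h1), zero_mul]
      · rw [hN (show b j < b k by rw [h.2]; exact h1), mul_zero]
  · rw [if_neg h]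
    symm
    refine Finset.sum_eq_zero fun k _ => ?_
    rw [blk0_apply, blk0_apply]
    by_cases h1 : b i = l
    · rw [if_neg (fun h' : b k = l ∧ b j = l => h ⟨h1, h'.2⟩), mul_zero]
    · rw [if_neg (fun h' => h1 h'.1), zero_mul]

theorem blk_mul {M N : Matrix (Fin n) (Fin n) A} (hM : M.BlockTriangular b) (hN : N.BlockTriangular b) :
    blk b l (M * N) = blk b l M * blk b l N := by
  have hone : (1 : Matrix (Fin n) (Fin n) A).BlockTriangular b := blockTriangular_one
  have h1 : M * N - 1 = (M - 1) * (N - 1) + (M - 1) + (N - 1) := by noncomm_ring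
  have h2 : ∀ X Y : Matrix (Fin n) (Fin n) A, blk0 b l (X + Y) = blk0 b l X + blk0 b l Y := by
    intro X Y
    ext i j
    rw [Matrix.add_apply, blk0_apply, blk0_apply, blk0_apply]
    by_cases h : b i = l ∧ b j = l
    · rw [if_pos h, if_pos h, if_pos h, Matrix.add_apply]
    · rw [if_neg h, if_neg h, if_neg h, add_zero]
  have h3 : blk b l (M * N) - 1 = blk b l M * blk b l N - 1 := by
    rw [blk_sub, h1, h2, h2, blk0_mul (hM.sub hone) (hN.sub hone), ← blk_sub, ← blk_sub]
    noncomm_ring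
  exact sub_left_inj.1 h3

theorem blk0_pow {M : Matrix (Fin n) (Fin n) A} (hM : M.BlockTriangular b) (k : ℕ) :
    blk0 b l (M ^ (k + 1)) = blk0 b l M ^ (k + 1) := by
  induction k with
  | zero => rw [zero_add, pow_one, pow_one]
  | succ k ih => rw [pow_succ, blk0_mul (hM.pow _) hM, ih, ← pow_succ]

/-- the diagonal block of a block triangular representation -/
def blkRep {G : Type} [Group G] (b : Fin n → ℤ) (l : ℤ) (ρ : G →* GL (Fin n) A)
    (h : ∀ g, (ρ g : Matrix (Fin n) (Fin n) A).BlockTriangular b) : G →* Matrix (Fin n) (Fin n) A where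
  toFun g := blk b l (ρ g : Matrix (Fin n) (Fin n) A)
  map_one' := by rw [map_one, Units.val_one, blk_one]
  map_mul' g g' := by rw [map_mul, Units.val_mul, blk_mul (h g) (h g')]

end

section

variable {p : ℕ} {S : Set ℕ} {P : Ideal (OO ℚ)} {A : Type} [CommRing A]
  [IsLocalRing A] [IsNoetherianRing A] {n : ℕ} {b : Fin n → ℤ} {l : ℤ}

theorem blockG (hp : p.Prime) (hS : ∀ q ∈ S, q.Prime ∧ q ≠ p) (hP : P.IsMaximal) (hpP : (p : OO ℚ) ∈ P)
    (hfin : Finite (ResidueField A)) (hpA : (p : A) ∈ maximalIdeal A) (ρ : GF ℚ →* GL (Fin n) A)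
    (hρ : ∀ k : ℕ, ∀ᶠ g in nhds (1 : GF ℚ), ME (maximalIdeal A) k ((ρ g : Matrix (Fin n) (Fin n) A) - 1))
    (hur : ∀ P' : Ideal (OO ℚ), P'.IsMaximal → (p : OO ℚ) ∉ P' → (∀ q ∈ S, (q : OO ℚ) ∉ P') →
      ∀ τ, InInertia P' τ → ρ τ = 1)
    (hres : ∀ g ∈ HH p, ∃ M : ℕ, ∀ i j,
      (((ρ g : Matrix (Fin n) (Fin n) A) - 1) ^ M) i j ∈ maximalIdeal A)
    (hlow : ∀ g, (ρ g : Matrix (Fin n) (Fin n) A).BlockTriangular b)
    (ψ : GF ℚ →* Aˣ)
    (hψ : ∀ k : ℕ, ∀ᶠ g in nhds (1 : GF ℚ), (ψ g : A) - 1 ∈ maximalIdeal A ^ k)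
    (hψur : ∀ P' : Ideal (OO ℚ), P'.IsMaximal → (p : OO ℚ) ∉ P' → (∀ q ∈ S, (q : OO ℚ) ∉ P') →
      ∀ τ, InInertia P' τ → ψ τ = 1)
    (hψres : ∀ g ∈ HH p, (ψ g : A) - 1 ∈ maximalIdeal A)
    (hS1 : ∀ q ∈ S, (q : ZMod p) ≠ 1)
    (hord : ∀ τ, InInertia P τ → ∀ i j, b i = l → b j = l → (ρ τ : Matrix (Fin n) (Fin n) A) i j =
      if i = j then ((ψ τ : Aˣ) : A) else 0) (g : GF ℚ) (i j : Fin n) (hi : b i = l) (hj : b j = l) :
    (ρ g : Matrix (Fin n) (Fin n) A) i j = if i = j then ((ψ g : Aˣ) : A) else 0 := by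
  set Z := blkRep b l ρ hlow with hZ
  have hZa : ∀ g, Z g = blk b l (ρ g : Matrix (Fin n) (Fin n) A) := fun _ => rfl
  have hZu : ∀ g, ((Z.toHomUnits g : GL (Fin n) A) : Matrix (Fin n) (Fin n) A) = blk b l (ρ g : Matrix (Fin n) (Fin n) A) :=
    fun _ => rfl
  have h0 : ∀ (k : ℕ) (M : Matrix (Fin n) (Fin n) A), (∀ i j, M i j ∈ maximalIdeal A ^ k) →
      ∀ i j, blk0 b l M i j ∈ maximalIdeal A ^ k := by
    intro k M hM i j
    rw [blk0_apply]
    split_ifs
    · exact hM i j
    · exact Ideal.zero_mem _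
  have hgr := gradG (w := fun i => if b i = l then 0 else 1) hp (fun q hq => ⟨(hS q hq).1, (hS q hq).2, hS1 q hq⟩)
    hP hpP hfin hpA Z.toHomUnits (fun k => by
      filter_upwards [hρ k] with g hg
      rw [hZu, blk_sub]
      exact h0 k _ hg) (fun P' hP' hpP' hSP' τ hτ => by
      apply Units.ext
      rw [hZu, hur P' hP' hpP' hSP' τ hτ, Units.val_one, blk_one]) (fun g hg => by
      obtain ⟨M, hM⟩ := hres g hg
      refine ⟨M + 1, fun i j => ?_⟩
      rw [hZu, blk_sub, ← blk0_pow ((hlow g).sub blockTriangular_one)]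
      have h1 : ∀ i j, (((ρ g : Matrix (Fin n) (Fin n) A) - 1) ^ (M + 1)) i j ∈ maximalIdeal A ^ 1 := by
        intro i j
        rw [pow_one, pow_succ (((ρ g : Matrix (Fin n) (Fin n) A) - 1)) M, Matrix.mul_apply]
        exact Ideal.sum_mem _ fun k _ => Ideal.mul_mem_right _ _ (hM i k)
      have h2 := h0 1 _ h1 i j
      rwa [pow_one] at h2)
    (fun t => if t = 0 then ψ else 1) (fun t k => by
      by_cases h : t = 0
      · simp only [h, if_true]; exact hψ k
      · simp only [h, if_false]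
        refine Filter.Eventually.of_forall fun g => ?_
        rw [MonoidHom.one_apply, Units.val_one, sub_self]
        exact Ideal.zero_mem _) (fun t P' hP' hpP' hSP' τ hτ => by
      by_cases h : t = 0
      · simp only [h, if_true]; exact hψur P' hP' hpP' hSP' τ hτ
      · simp only [h, if_false]; rfl) (fun t g hg => by
      by_cases h : t = 0
      · simp only [h, if_true]; exact hψres g hg
      · simp only [h, if_false]
        rw [MonoidHom.one_apply, Units.val_one, sub_self]
        exact Ideal.zero_mem _) (fun g i j hij => by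
      rw [hZu, blk_apply]
      by_cases h1 : b i = l
      · by_cases h2 : b j = l
        · simp only [h1, h2, if_true, lt_self_iff_false] at hij
        · rw [if_neg (fun h => h2 h.2), Matrix.one_apply_ne (fun h => h2 (by rw [← h, h1]))]
      · by_cases h2 : b j = l
        · simp only [h1, h2, if_true, if_false] at hij
          omega
        · simp only [h1, h2, if_false, lt_self_iff_false] at hij) (fun τ hτ i j hij => by
      rw [hZu, blk_apply]
      by_cases h1 : b i = l
      · by_cases h2 : b j = l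
        · rw [if_pos ⟨h1, h2⟩, hord τ hτ i j h1 h2]
          simp only [h1, if_true]
        · simp only [h1, h2, if_true, if_false] at hij
          omega
      · by_cases h2 : b j = l
        · simp only [h1, h2, if_true, if_false] at hij
          omega
        · rw [if_neg (fun h => h2 h.2)]
          simp only [h1, if_false, one_ne_zero]
          rw [MonoidHom.one_apply, Units.val_one]
          rfl) g i j (by simp only [hi, hj])
  rw [hZu, blk_apply, if_pos ⟨hi, hj⟩] at hgr
  simp only [hi, if_true] at hgr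
  exact hgr

end

theorem nounr_modEq {p : ℕ} (hp : p.Prime) {a b : ℕ} (h : a ≡ b [MOD p - 1]) : NoUnrC p a b := by
  have : Fact p.Prime := ⟨hp⟩
  intro f hf hunr hall
  refine nounr_self hp a f hf hunr fun m g hg x => ?_
  rw [hall m g hg x]
  apply pow_congr
  have hm0 := exp_ne_zero hp hg
  have h1 : ∀ c d : ℕ, c ≤ d → c ≡ d [MOD p - 1] → (m : ZMod p) ^ d = (m : ZMod p) ^ c := by
    intro c d hcd h
    obtain ⟨k, hk⟩ := (Nat.modEq_iff_dvd' hcd).1 h
    have h2 : d = c + (p - 1) * k := by omega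
    rw [h2, pow_add, pow_mul, ZMod.pow_card_sub_one_eq_one hm0, one_pow, mul_one]
  push_cast
  rcases le_total a b with h2 | h2
  · exact h1 a b h2 h
  · exact (h1 b a h2 h.symm).symm

theorem nounr_cases {p : ℕ} (hp : p.Prime) {a b : ℕ} (h : p ≤ 7 ∨ a ≡ b [MOD p - 1] ∨ NoUnrC p a b) :
    NoUnrC p a b := by
  rcases h with h | h | h
  · exact noUnrC_of p a b (reg p hp h)
  · exact nounr_modEq hp h
  · exact h

end Pool.Agent.K1H81.LR
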