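import Mathlib

/-! The nilpotent algebra generated by a group, and a stable subalgebra. -/

set_option autoImplicit false

namespace Pool.Agent.K1H81.LR

variable {A : Type} [CommRing A] {B : Type} [Ring B] [Algebra A B]

/-- conjugation -/
def conjL (T : Bˣ) : B →ₗ[A] B where
  toFun x := T * x * ((T⁻¹ : Bˣ) : B)
  map_add' x y := by rw [mul_add, add_mul]
  map_smul' a x := by rw [mul_smul_comm, smul_mul_assoc, RingHom.id_apply]

theorem conjL_mul (T : Bˣ) (x y : B) : conjL (A := A) T (x * y) = conjL (A := A) T x * conjL (A := A) T y := by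
  show (T : B) * (x * y) * ((T⁻¹ : Bˣ) : B) = T * x * ((T⁻¹ : Bˣ) : B) * (T * y * ((T⁻¹ : Bˣ) : B))
  have h : ((T⁻¹ : Bˣ) : B) * T = 1 := Units.inv_mul T
  calc (T : B) * (x * y) * ((T⁻¹ : Bˣ) : B) = T * x * 1 * y * ((T⁻¹ : Bˣ) : B) := by rw [mul_one]; simp only [mul_assoc]
    _ = _ := by rw [← h]; simp only [mul_assoc]

/-- the product of the operators `Γ - m` -/
def Op (Γ : B →ₗ[A] B) (ms : List ℕ) : B →ₗ[A] B := (ms.map fun m : ℕ => (Γ - (m : A) • LinearMap.id : Module.End A B)).prod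

theorem Op_nil (Γ : B →ₗ[A] B) : Op Γ [] = LinearMap.id := rfl

theorem Op_cons (Γ : B →ₗ[A] B) (m : ℕ) (ms : List ℕ) :
    Op Γ (m :: ms) = (Γ - (m : A) • LinearMap.id : B →ₗ[A] B).comp (Op Γ ms) := rfl

theorem map_sub_le {Γ : B →ₗ[A] B} {D : Submodule A B} (hD : D.map Γ ≤ D) (m : ℕ) :
    D.map (Γ - (m : A) • LinearMap.id : B →ₗ[A] B) ≤ D := by
  rintro _ ⟨x, hx, rfl⟩
  exact D.sub_mem (hD ⟨x, hx, rfl⟩) (D.smul_mem _ hx)

theorem Op_le {Γ : B →ₗ[A] B} {D : Submodule A B} (hD : D.map Γ ≤ D) (ms : List ℕ) : D.map (Op Γ ms) ≤ D := by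
  induction ms with
  | nil => rw [Op_nil, Submodule.map_id]
  | cons m ms ih =>
    rw [Op_cons, Submodule.map_comp]
    exact (Submodule.map_mono ih).trans (map_sub_le hD m)

theorem le_Op {Γ : B →ₗ[A] B} {R D : Submodule A B} (hD : D.map Γ ≤ D) (ms : List ℕ)
    (h : ∀ m ∈ ms, R ≤ D ⊔ R.map (Γ - (m : A) • LinearMap.id : B →ₗ[A] B)) : R ≤ D ⊔ R.map (Op Γ ms) := by
  induction ms with
  | nil => rw [Op_nil, Submodule.map_id]; exact le_sup_right
  | cons m ms ih =>
    have h1 := ih fun m' hm' => h m' (List.mem_cons_of_mem _ hm')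
    have h2 := h m List.mem_cons_self
    rw [Op_cons, Submodule.map_comp]
    refine h2.trans (sup_le le_sup_left ?_)
    refine (Submodule.map_mono h1).trans ?_
    rw [Submodule.map_sup]
    exact sup_le ((map_sub_le hD m).trans le_sup_left) le_sup_right

theorem le_Op_pow {Γ : B →ₗ[A] B} {R D : Submodule A B} (hD : D.map Γ ≤ D) (ms : List ℕ)
    (h : R ≤ D ⊔ R.map (Op Γ ms)) (e : ℕ) : R ≤ D ⊔ R.map ((Op Γ ms : Module.End A B) ^ e) := by
  induction e with
  | zero =>
    rw [pow_zero]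
    exact le_trans (by rw [Module.End.one_eq_id, Submodule.map_id]) le_sup_right
  | succ e ih =>
    rw [pow_succ', Module.End.mul_eq_comp, Submodule.map_comp]
    refine h.trans (sup_le le_sup_left ?_)
    refine (Submodule.map_mono ih).trans ?_
    rw [Submodule.map_sup]
    exact sup_le ((Op_le hD ms).trans le_sup_left) le_sup_right

theorem span_mul {H : Type} [Group H] {X : H → B} (hX : ∀ g h, X (g * h) = X g + X h + X g * X h) :
    Submodule.span A (Set.range X) * Submodule.span A (Set.range X) ≤ Submodule.span A (Set.range X) := by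
  rw [Submodule.span_mul_span, Submodule.span_le]
  rintro _ ⟨_, ⟨g, rfl⟩, _, ⟨h, rfl⟩, rfl⟩
  have h1 : X g * X h = X (g * h) - X g - X h := by rw [hX]; abel
  show X g * X h ∈ Submodule.span A (Set.range X)
  rw [h1]
  exact Submodule.sub_mem _ (Submodule.sub_mem _ (Submodule.subset_span ⟨_, rfl⟩) (Submodule.subset_span ⟨_, rfl⟩))
    (Submodule.subset_span ⟨_, rfl⟩)

/-- nilpotent Nakayama -/
theorem nak {p : ℕ} (hpA : IsNilpotent (p : A)) (R L : Submodule A B) (hRR : R * R ≤ R) (hL : (R ⊓ L) * (R ⊓ L) ≤ L)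
    (hnil : ∃ K, R ^ K = ⊥)
    (h : R ≤ R * R ⊔ R.map (LinearMap.lsmul A B (p : A)) ⊔ (R ⊓ L)) : R ≤ L := by
  set pR : Submodule A B := R.map (LinearMap.lsmul A B (p : A)) with hpR
  have hRL : (R ⊓ L) * (R ⊓ L) ≤ R ⊓ L :=
    le_inf ((mul_le_mul' inf_le_left inf_le_left).trans hRR) hL
  have hp1 : pR * R ≤ pR := by
    rw [Submodule.mul_le]
    rintro _ ⟨x, hx, rfl⟩ y hy
    refine ⟨x * y, hRR (Submodule.mul_mem_mul hx hy), ?_⟩
    rw [LinearMap.lsmul_apply, LinearMap.lsmul_apply, smul_mul_assoc]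
  have hpR' : pR ≤ R := by
    rintro _ ⟨x, hx, rfl⟩
    exact R.smul_mem _ hx
  have hp2 : R * pR ≤ pR := by
    rw [Submodule.mul_le]
    rintro y hy _ ⟨x, hx, rfl⟩
    refine ⟨y * x, hRR (Submodule.mul_mem_mul hy hx), ?_⟩
    rw [LinearMap.lsmul_apply, LinearMap.lsmul_apply, mul_smul_comm]
  -- powers
  have h1 : ∀ k : ℕ, R ≤ R ^ (k + 2) ⊔ pR ⊔ (R ⊓ L) := by
    intro k
    induction k with
    | zero => rw [zero_add, pow_two]; exact h
    | succ k ih =>
      refine h.trans (sup_le (sup_le ?_ (le_sup_right.trans le_sup_left)) le_sup_right)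
      refine (mul_le_mul' ih ih).trans ?_
      have hpow : R ^ (k + 2) ≤ R := by
        have : ∀ j : ℕ, R ^ (j + 1) ≤ R := by
          intro j
          induction j with
          | zero => rw [zero_add, pow_one]
          | succ j ihj => rw [pow_succ]; exact (mul_le_mul' ihj le_rfl).trans hRR
        exact this (k + 1)
      have hS : R ^ (k + 2) ⊔ pR ⊔ (R ⊓ L) ≤ R := sup_le (sup_le hpow hpR') inf_le_left
      rw [Submodule.mul_sup]
      refine sup_le ?_ ?_
      · -- anything times `R ^ (k + 2) ⊔ pR`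
        rw [Submodule.mul_sup]
        refine sup_le ?_ ?_
        · refine le_trans ?_ (le_sup_left.trans le_sup_left)
          rw [pow_succ' R (k + 1 + 1)]
          exact mul_le_mul' hS le_rfl
        · refine le_trans ?_ (le_sup_right.trans le_sup_left)
          exact (mul_le_mul' hS le_rfl).trans hp2
      · rw [Submodule.sup_mul]
        refine sup_le ?_ ?_
        · rw [Submodule.sup_mul]
          refine sup_le ?_ ?_
          · refine le_trans ?_ (le_sup_left.trans le_sup_left)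
            rw [pow_succ R (k + 1 + 1)]
            exact mul_le_mul' le_rfl inf_le_left
          · refine le_trans ?_ (le_sup_right.trans le_sup_left)
            exact (mul_le_mul' le_rfl inf_le_left).trans hp1
        · exact hRL.trans le_sup_right
  obtain ⟨K, hK⟩ := hnil
  have h2 : R ≤ pR ⊔ (R ⊓ L) := by
    have h3 := h1 K
    have h4 : R ^ (K + 2) = ⊥ := by rw [pow_add, hK, Submodule.bot_mul]
    rwa [h4, bot_sup_eq] at h3
  -- powers of `p`
  have h3 : ∀ k : ℕ, R ≤ R.map (LinearMap.lsmul A B ((p : A) ^ k)) ⊔ (R ⊓ L) := by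
    intro k
    induction k with
    | zero =>
      refine le_trans ?_ le_sup_left
      intro x hx
      exact ⟨x, hx, by rw [pow_zero, LinearMap.lsmul_apply, one_smul]⟩
    | succ k ih =>
      refine h2.trans (sup_le ?_ le_sup_right)
      rintro _ ⟨x, hx, rfl⟩
      obtain ⟨y, hy, z, hz, hyz⟩ := Submodule.mem_sup.1 (ih hx)
      obtain ⟨y', hy', rfl⟩ := hy
      rw [← hyz, map_add]
      refine Submodule.add_mem _ (Submodule.mem_sup_left ⟨y', hy', ?_⟩)
        (Submodule.mem_sup_right (Submodule.smul_mem _ _ hz))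
      rw [LinearMap.lsmul_apply, LinearMap.lsmul_apply, LinearMap.lsmul_apply, smul_smul, pow_succ']
  obtain ⟨k, hk⟩ := hpA
  intro x hx
  obtain ⟨y, ⟨y', -, rfl⟩, z, hz, hyz⟩ := Submodule.mem_sup.1 (h3 k hx)
  rw [← hyz, hk, LinearMap.lsmul_apply, zero_smul, zero_add]
  exact hz.2

/-- **The core.** -/
theorem core {p : ℕ} (hpA : IsNilpotent (p : A)) [Finite B] (L : Submodule A B)
    (hL : ∀ x ∈ L, ∀ y ∈ L, x * y ∈ L) (T : Bˣ) (hT : ∀ x ∈ L, conjL (A := A) T x ∈ L)
    {H : Type} [Group H] (c : H → H) (X : H → B) (hX : ∀ g h, X (g * h) = X g + X h + X g * X h)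
    (hc : ∀ h, conjL (A := A) T (X h) = X (c h)) (hnil : ∃ K, (Submodule.span A (Set.range X)) ^ K = ⊥)
    (ms : List ℕ) (heig : ∃ e : ℕ, ∀ x : B, ((Op (conjL (A := A) T) ms : Module.End A B) ^ e) x ∈ L)
    (harith : ∀ m ∈ ms, ∀ (Q : Type) [AddCommGroup Q] [Finite Q] (Y : H → Q), (∀ x : Q, p • x = 0) →
      (∀ g h, Y (g * h) = Y g + Y h) → (∀ g, X g ∈ L → Y g = 0) → (∀ g, Y (c g) = m • Y g) → ∀ g, Y g = 0) :
    ∀ g, X g ∈ L := by
  set R := Submodule.span A (Set.range X) with hR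
  set Γ := conjL (A := A) T with hΓ
  have hRR : R * R ≤ R := span_mul hX
  have hXR : ∀ g, X g ∈ R := fun g => Submodule.subset_span ⟨g, rfl⟩
  have hΓR : R.map Γ ≤ R := by
    rw [hR, Submodule.map_span, Submodule.span_le]
    rintro _ ⟨_, ⟨g, rfl⟩, rfl⟩
    rw [hc]
    exact Submodule.subset_span ⟨_, rfl⟩
  set pR : Submodule A B := R.map (LinearMap.lsmul A B (p : A)) with hpR
  set D := R * R ⊔ pR ⊔ (R ⊓ L) with hD
  have hDΓ : D.map Γ ≤ D := by
    rw [hD, Submodule.map_sup, Submodule.map_sup]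
    refine sup_le_sup (sup_le_sup ?_ ?_) ?_
    · rw [Submodule.map_le_iff_le_comap, Submodule.mul_le]
      intro x hx y hy
      rw [Submodule.mem_comap, hΓ, conjL_mul]
      exact Submodule.mul_mem_mul (hΓR ⟨x, hx, rfl⟩) (hΓR ⟨y, hy, rfl⟩)
    · rintro _ ⟨_, ⟨x, hx, rfl⟩, rfl⟩
      refine ⟨Γ x, hΓR ⟨x, hx, rfl⟩, ?_⟩
      rw [LinearMap.lsmul_apply, LinearMap.lsmul_apply, map_smul]
    · rintro _ ⟨x, hx, rfl⟩
      exact ⟨hΓR ⟨x, hx.1, rfl⟩, hT x hx.2⟩
  have hLR : (R ⊓ L) * (R ⊓ L) ≤ L := by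
    rw [Submodule.mul_le]
    intro x hx y hy
    exact hL x hx.2 y hy.2
  have key : R ≤ D := by
    have h1 : ∀ m ∈ ms, R ≤ D ⊔ R.map (Γ - (m : A) • LinearMap.id : B →ₗ[A] B) := by
      intro m hm
      set Dm := D ⊔ R.map (Γ - (m : A) • LinearMap.id : B →ₗ[A] B) with hDm
      let Y : H → R ⧸ Dm.submoduleOf R := fun g => Submodule.Quotient.mk ⟨X g, hXR g⟩
      have hY0 : ∀ (x : R), (Submodule.Quotient.mk x : R ⧸ Dm.submoduleOf R) = 0 ↔ (x : B) ∈ Dm := by
        intro x
        rw [Submodule.Quotient.mk_eq_zero]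
        rfl
      have hfinR : Finite R := Subtype.finite
      have hfin : Finite (R ⧸ Dm.submoduleOf R) := Finite.of_surjective _ (Submodule.Quotient.mk_surjective _)
      have hY := harith m hm (R ⧸ Dm.submoduleOf R) Y ?_ ?_ ?_ ?_
      · rw [hR, Submodule.span_le]
        rintro _ ⟨g, rfl⟩
        exact (hY0 _).1 (hY g)
      · intro x
        obtain ⟨x, rfl⟩ := Submodule.Quotient.mk_surjective _ x
        have : p • (Submodule.Quotient.mk x : R ⧸ Dm.submoduleOf R) = Submodule.Quotient.mk (p • x) := rfl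
        rw [this, hY0]
        refine Submodule.mem_sup_left (Submodule.mem_sup_left (Submodule.mem_sup_right ⟨x, x.2, ?_⟩))
        rw [LinearMap.lsmul_apply, Nat.cast_smul_eq_nsmul]
        rfl
      · intro g h
        have : Y g + Y h = Submodule.Quotient.mk (⟨X g, hXR g⟩ + ⟨X h, hXR h⟩ : R) := rfl
        rw [this, ← sub_eq_zero]
        have h2 : Y (g * h) - Submodule.Quotient.mk (⟨X g, hXR g⟩ + ⟨X h, hXR h⟩ : R) =
            Submodule.Quotient.mk ((⟨X (g * h), hXR _⟩ : R) - (⟨X g, hXR g⟩ + ⟨X h, hXR h⟩ : R)) := rfl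
        rw [h2, hY0]
        refine Submodule.mem_sup_left (Submodule.mem_sup_left (Submodule.mem_sup_left ?_))
        have h3 : (((⟨X (g * h), hXR _⟩ : R) - (⟨X g, hXR g⟩ + ⟨X h, hXR h⟩ : R) : R) : B) = X g * X h := by
          show X (g * h) - (X g + X h) = X g * X h
          rw [hX]
          abel
        rw [h3]
        exact Submodule.mul_mem_mul (hXR g) (hXR h)
      · intro g hg
        exact (hY0 _).2 (Submodule.mem_sup_left (Submodule.mem_sup_right ⟨hXR g, hg⟩))
      · intro g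
        have h1 : m • Y g = Submodule.Quotient.mk (m • (⟨X g, hXR g⟩ : R)) := rfl
        rw [h1, ← sub_eq_zero]
        have h2 : Y (c g) - Submodule.Quotient.mk (m • (⟨X g, hXR g⟩ : R)) =
            Submodule.Quotient.mk ((⟨X (c g), hXR _⟩ : R) - m • (⟨X g, hXR g⟩ : R)) := rfl
        rw [h2, hY0]
        refine Submodule.mem_sup_right ⟨X g, hXR g, ?_⟩
        show Γ (X g) - (m : A) • X g = X (c g) - m • X g
        rw [hc, Nat.cast_smul_eq_nsmul]
    obtain ⟨e, he⟩ := heig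
    refine (le_Op_pow hDΓ ms (le_Op hDΓ ms h1) e).trans (sup_le le_rfl ?_)
    rintro _ ⟨x, hx, rfl⟩
    refine Submodule.mem_sup_right ⟨?_, he x⟩
    have h5 : ∀ k : ℕ, ∀ y ∈ R, ((Op Γ ms : Module.End A B) ^ k) y ∈ R := by
      intro k
      induction k with
      | zero => intro y hy; exact hy
      | succ k ih =>
        intro y hy
        rw [pow_succ', Module.End.mul_apply]
        exact Op_le hΓR ms ⟨_, ih y hy, rfl⟩
    exact h5 e x hx
  have h2 := nak hpA R L hRR hLR hnil key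
  exact fun g => h2 (hXR g)

end Pool.Agent.K1H81.LR
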