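import Pool.Agent.K1H81.LR.Core

/-! Eigenvalues of the conjugation by a block triangular matrix. -/

set_option autoImplicit false

namespace Pool.Agent.K1H81.LR

open Matrix IsLocalRing Polynomial

section
variable {A : Type} [CommRing A]

theorem entries_pow {κ : Type} [Fintype κ] [DecidableEq κ] (I : Ideal A) {M : Matrix κ κ A} (h : ∀ i j, M i j ∈ I) (k : ℕ) :
    ∀ i j, (M ^ k) i j ∈ I ^ k := by
  induction k with
  | zero => intro i j; rw [pow_zero, Ideal.one_eq_top]; trivial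
  | succ k ih =>
    intro i j
    rw [pow_succ, pow_succ, Matrix.mul_apply]
    exact Ideal.sum_mem _ fun l _ => Ideal.mul_mem_mul (ih i l) (h l j)

/-- Cayley-Hamilton modulo the maximal ideal -/
theorem nil1 [IsLocalRing A] [Finite A] {κ : Type} [Fintype κ] [DecidableEq κ] (M : Matrix κ κ A) (e : κ → ℕ)
    (h : (M.map (residue A)).charpoly = ∏ i, (X - C ((e i : ℕ) : ResidueField A))) :
    IsNilpotent (aeval M (∏ i, (X - C ((e i : ℕ) : A)))) := by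
  obtain ⟨s, hs⟩ : ∃ s : ℕ, maximalIdeal A ^ s = ⊥ := by
    have h1 := IsArtinianRing.isNilpotent_jacobson_bot (R := A)
    rw [IsLocalRing.jacobson_eq_maximalIdeal ⊥ bot_ne_top] at h1
    exact h1
  refine ⟨s, ?_⟩
  have h1 : ∀ i j, (aeval M (∏ i, (X - C ((e i : ℕ) : A)))) i j ∈ maximalIdeal A := by
    intro i j
    rw [← residue_eq_zero_iff]
    have h2 : (aeval M (∏ i, (X - C ((e i : ℕ) : A)))).map (residue A) = 0 := by
      have h3 := Matrix.aeval_self_charpoly (M.map (residue A))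
      rw [h] at h3
      rw [← h3]
      have h4 : (residue A).mapMatrix (aeval M (∏ i, (X - C ((e i : ℕ) : A)))) =
          aeval ((residue A).mapMatrix M) ((∏ i, (X - C ((e i : ℕ) : A))).map (residue A)) := by
        rw [aeval_def, aeval_def, Polynomial.hom_eval₂, Polynomial.eval₂_map]
        congr 1
        ext a i j
        simp only [RingHom.comp_apply, RingHom.mapMatrix_apply, Matrix.map_apply, Matrix.algebraMap_matrix_apply]
        split_ifs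
        · rfl
        · exact map_zero _
      rw [RingHom.mapMatrix_apply, RingHom.mapMatrix_apply] at h4
      rw [h4]
      congr 1
      rw [Polynomial.map_prod]
      exact Finset.prod_congr rfl fun i _ => by simp
    exact congrFun (congrFun h2 i) j
  ext i j
  have h2 := entries_pow (maximalIdeal A) h1 s i j
  rw [hs] at h2
  exact h2

end

section
variable {A : Type} [CommRing A] {E : Type} [Ring E] [Algebra A E]

open scoped IsMulCommutative in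
/-- eigenvalues of a product of commuting elements -/
theorem nil2 {p : ℕ} (hpA : IsNilpotent (p : A)) {ι κ : Type} [Fintype ι] [Fintype κ] (x y z : E)
    (hxy : x * y = y * x) (hxz : x * z = z * x) (hyz : y * z = 1) (hzy : z * y = 1) (a : ι → ℕ) (b : κ → ℕ)
    (hx : IsNilpotent (aeval x (∏ j, (X - C ((b j : ℕ) : A))))) (hz : IsNilpotent (aeval z (∏ i, (X - C ((a i : ℕ) : A)))))
    (ms : List ℕ) (hms : ∀ i j, ∃ m ∈ ms, ((m * a i : ℕ) : ZMod p) = (b j : ℕ)) :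
    IsNilpotent ((ms.map fun m : ℕ => (x * y - (m : A) • (1 : E))).prod) := by
  have hcomm : ∀ u ∈ ({x, y, z} : Set E), ∀ w ∈ ({x, y, z} : Set E), u * w = w * u := by
    intro u hu w hw
    simp only [Set.mem_insert_iff, Set.mem_singleton_iff] at hu hw
    rcases hu with rfl | rfl | rfl <;> rcases hw with rfl | rfl | rfl
    · rfl
    · exact hxy
    · exact hxz
    · exact hxy.symm
    · rfl
    · rw [hyz, hzy]
    · exact hxz.symm
    · rw [hyz, hzy]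
    · rfl
  let S : Subalgebra A E := Algebra.adjoin A {x, y, z}
  have hS : IsMulCommutative S := Algebra.isMulCommutative_adjoin A hcomm
  let _ : CommRing S := inferInstance
  let x' : S := ⟨x, Algebra.subset_adjoin (by simp)⟩
  let y' : S := ⟨y, Algebra.subset_adjoin (by simp)⟩
  let z' : S := ⟨z, Algebra.subset_adjoin (by simp)⟩
  have hinj : Function.Injective (S.val) := Subtype.val_injective
  have hx' : IsNilpotent (aeval x' (∏ j, (X - C ((b j : ℕ) : A)))) := by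
    rw [← IsNilpotent.map_iff hinj, ← Polynomial.aeval_algHom_apply]
    exact hx
  have hz' : IsNilpotent (aeval z' (∏ i, (X - C ((a i : ℕ) : A)))) := by
    rw [← IsNilpotent.map_iff hinj, ← Polynomial.aeval_algHom_apply]
    exact hz
  have hyz' : y' * z' = 1 := Subtype.ext hyz
  have hmain : IsNilpotent ((ms.map fun m : ℕ => (x' * y' - (m : A) • (1 : S))).prod) := by
    rw [nilpotent_iff_mem_prime]
    intro J hJ
    rw [nilpotent_iff_mem_prime] at hx' hz'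
    have h1 := hx' J hJ
    have h2 := hz' J hJ
    rw [map_prod, Ideal.IsPrime.prod_mem_iff] at h1 h2
    obtain ⟨j, -, hj⟩ := h1
    obtain ⟨i, -, hi⟩ := h2
    rw [map_sub, aeval_X, aeval_C, map_natCast] at hj hi
    obtain ⟨m, hm, hmij⟩ := hms i j
    have hpJ : (p : S) ∈ J := by
      have h3 : IsNilpotent (p : S) := by
        have := hpA.map (algebraMap A S)
        rwa [map_natCast] at this
      exact (nilpotent_iff_mem_prime.1 h3) J hJ
    have h3 : (x' * y' - (m : A) • (1 : S)) * z' ∈ J := by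
      have h4 : (x' * y' - (m : A) • (1 : S)) * z' = (x' - (b j : ℕ)) - (m : S) * (z' - (a i : ℕ)) +
          (((b j : ℕ) : S) - ((m * a i : ℕ) : S)) := by
        rw [sub_mul, mul_assoc, hyz', smul_mul_assoc, one_mul, Nat.cast_smul_eq_nsmul, nsmul_eq_mul]
        push_cast
        ring
      rw [h4]
      refine J.add_mem (J.sub_mem hj (J.mul_mem_left _ hi)) ?_
      have h5 : ((p : ℕ) : ℤ) ∣ ((b j : ℕ) : ℤ) - ((m * a i : ℕ) : ℤ) := by
        rw [← ZMod.intCast_zmod_eq_zero_iff_dvd]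
        push_cast
        push_cast at hmij
        rw [hmij, sub_self]
      obtain ⟨t, ht⟩ := h5
      have h6 : (((b j : ℕ) : S) - ((m * a i : ℕ) : S)) = (p : S) * (t : S) := by
        have := congrArg (fun n : ℤ => (n : S)) ht
        push_cast at this ⊢
        exact this
      rw [h6]
      exact J.mul_mem_right _ hpJ
    have h7 : x' * y' - (m : A) • (1 : S) ∈ J := by
      rcases hJ.mem_or_mem h3 with h | h
      · exact h
      · exfalso
        apply hJ.ne_top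
        rw [Ideal.eq_top_iff_one, ← hyz']
        exact J.mul_mem_left _ h
    exact J.mem_of_dvd (List.dvd_prod (List.mem_map_of_mem hm)) h7
  have h8 := hmain.map S.val
  rw [map_list_prod, List.map_map] at h8
  have h9 : (S.val ∘ fun m : ℕ => (x' * y' - (m : A) • (1 : S))) = fun m : ℕ => (x * y - (m : A) • (1 : E)) := by
    funext m
    rfl
  rw [h9] at h8
  exact h8

end

section
variable {A : Type} [CommRing A] {κ₁ κ₂ : Type} [Fintype κ₁] [Fintype κ₂] [DecidableEq κ₁] [DecidableEq κ₂]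

/-- left multiplication -/
def lmul (M : Matrix κ₂ κ₂ A) : Module.End A (Matrix κ₂ κ₁ A) where
  toFun C := M * C
  map_add' := Matrix.mul_add M
  map_smul' a C := Matrix.mul_smul M a C

/-- right multiplication -/
def rmul (M : Matrix κ₁ κ₁ A) : Module.End A (Matrix κ₂ κ₁ A) where
  toFun C := C * M
  map_add' C D := Matrix.add_mul C D M
  map_smul' a C := Matrix.smul_mul a C M

theorem lmul_pow (M : Matrix κ₂ κ₂ A) (k : ℕ) : (lmul M : Module.End A (Matrix κ₂ κ₁ A)) ^ k = lmul (M ^ k) := by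
  induction k with
  | zero => ext1 C; rw [pow_zero, pow_zero]; exact (Matrix.one_mul C).symm
  | succ k ih =>
    ext1 C
    rw [pow_succ, pow_succ, ih]
    exact (Matrix.mul_assoc _ _ _).symm

theorem rmul_pow (M : Matrix κ₁ κ₁ A) (k : ℕ) : (rmul M : Module.End A (Matrix κ₂ κ₁ A)) ^ k = rmul (M ^ k) := by
  induction k with
  | zero => ext1 C; rw [pow_zero, pow_zero]; exact (Matrix.mul_one C).symm
  | succ k ih =>
    ext1 C
    rw [pow_succ, pow_succ', ih]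
    exact Matrix.mul_assoc _ _ _

theorem aeval_lmul (M : Matrix κ₂ κ₂ A) (P : A[X]) :
    aeval (lmul M : Module.End A (Matrix κ₂ κ₁ A)) P = lmul (aeval M P) := by
  rw [aeval_eq_sum_range, aeval_eq_sum_range]
  ext1 C
  rw [LinearMap.sum_apply]
  show _ = (∑ i ∈ Finset.range (P.natDegree + 1), P.coeff i • M ^ i) * C
  rw [Matrix.sum_mul]
  refine Finset.sum_congr rfl fun i _ => ?_
  rw [lmul_pow, Matrix.smul_mul]
  rfl

theorem aeval_rmul (M : Matrix κ₁ κ₁ A) (P : A[X]) :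
    aeval (rmul M : Module.End A (Matrix κ₂ κ₁ A)) P = rmul (aeval M P) := by
  rw [aeval_eq_sum_range, aeval_eq_sum_range]
  ext1 C
  rw [LinearMap.sum_apply]
  show _ = C * (∑ i ∈ Finset.range (P.natDegree + 1), P.coeff i • M ^ i)
  rw [Matrix.mul_sum]
  refine Finset.sum_congr rfl fun i _ => ?_
  rw [rmul_pow, Matrix.mul_smul]
  rfl

theorem nil_lmul {M : Matrix κ₂ κ₂ A} (h : IsNilpotent M) : IsNilpotent (lmul M : Module.End A (Matrix κ₂ κ₁ A)) := by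
  obtain ⟨k, hk⟩ := h
  refine ⟨k, ?_⟩
  rw [lmul_pow, hk]
  ext1 C
  exact Matrix.zero_mul C

theorem nil_rmul {M : Matrix κ₁ κ₁ A} (h : IsNilpotent M) : IsNilpotent (rmul M : Module.End A (Matrix κ₂ κ₁ A)) := by
  obtain ⟨k, hk⟩ := h
  refine ⟨k, ?_⟩
  rw [rmul_pow, hk]
  ext1 C
  exact Matrix.mul_zero C

/-- the block triangular matrices -/
def LL : Submodule A (Matrix (κ₁ ⊕ κ₂) (κ₁ ⊕ κ₂) A) where
  carrier := {X | X.toBlocks₂₁ = 0}
  add_mem' := by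
    intro X Y hX hY
    show (X + Y).toBlocks₂₁ = 0
    have : (X + Y).toBlocks₂₁ = X.toBlocks₂₁ + Y.toBlocks₂₁ := rfl
    rw [this, hX, hY, add_zero]
  zero_mem' := rfl
  smul_mem' := by
    intro a X hX
    show (a • X).toBlocks₂₁ = 0
    have : (a • X).toBlocks₂₁ = a • X.toBlocks₂₁ := rfl
    rw [this, hX, smul_zero]

theorem mem_LL {X : Matrix (κ₁ ⊕ κ₂) (κ₁ ⊕ κ₂) A} : X ∈ (LL : Submodule A (Matrix (κ₁ ⊕ κ₂) (κ₁ ⊕ κ₂) A)) ↔
    X.toBlocks₂₁ = 0 := Iff.rfl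

theorem toBlocks₂₁_mul (X Y : Matrix (κ₁ ⊕ κ₂) (κ₁ ⊕ κ₂) A) :
    (X * Y).toBlocks₂₁ = X.toBlocks₂₁ * Y.toBlocks₁₁ + X.toBlocks₂₂ * Y.toBlocks₂₁ := by
  conv_lhs => rw [← fromBlocks_toBlocks X, ← fromBlocks_toBlocks Y, fromBlocks_multiply, toBlocks_fromBlocks₂₁]

theorem toBlocks₁₁_mul (X Y : Matrix (κ₁ ⊕ κ₂) (κ₁ ⊕ κ₂) A) :
    (X * Y).toBlocks₁₁ = X.toBlocks₁₁ * Y.toBlocks₁₁ + X.toBlocks₁₂ * Y.toBlocks₂₁ := by
  conv_lhs => rw [← fromBlocks_toBlocks X, ← fromBlocks_toBlocks Y, fromBlocks_multiply, toBlocks_fromBlocks₁₁]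

theorem LL_mul {X Y : Matrix (κ₁ ⊕ κ₂) (κ₁ ⊕ κ₂) A} (hX : X.toBlocks₂₁ = 0) (hY : Y.toBlocks₂₁ = 0) :
    (X * Y).toBlocks₂₁ = 0 := by
  rw [toBlocks₂₁_mul, hX, hY, Matrix.zero_mul, Matrix.mul_zero, add_zero]

/-- **The eigenvalues of the conjugation on the quotient by the block triangular matrices.** -/
theorem eig [IsLocalRing A] [Finite A] {p : ℕ} (hpA : IsNilpotent (p : A)) (T : GL (κ₁ ⊕ κ₂) A)
    (hT : (T : Matrix (κ₁ ⊕ κ₂) (κ₁ ⊕ κ₂) A).toBlocks₂₁ = 0)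
    (hT' : ((T⁻¹ : GL (κ₁ ⊕ κ₂) A) : Matrix (κ₁ ⊕ κ₂) (κ₁ ⊕ κ₂) A).toBlocks₂₁ = 0) (a : κ₁ → ℕ) (b : κ₂ → ℕ)
    (ha : ((T : Matrix (κ₁ ⊕ κ₂) (κ₁ ⊕ κ₂) A).toBlocks₁₁.map (residue A)).charpoly = ∏ i, (X - C ((a i : ℕ) : ResidueField A)))
    (hb : ((T : Matrix (κ₁ ⊕ κ₂) (κ₁ ⊕ κ₂) A).toBlocks₂₂.map (residue A)).charpoly = ∏ i, (X - C ((b i : ℕ) : ResidueField A)))
    (ms : List ℕ) (hms : ∀ i j, ∃ m ∈ ms, ((m * a i : ℕ) : ZMod p) = (b j : ℕ)) :
    ∃ e : ℕ, ∀ x : Matrix (κ₁ ⊕ κ₂) (κ₁ ⊕ κ₂) A,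
      ((Op (conjL (A := A) T) ms : Module.End A (Matrix (κ₁ ⊕ κ₂) (κ₁ ⊕ κ₂) A)) ^ e) x ∈
        (LL : Submodule A (Matrix (κ₁ ⊕ κ₂) (κ₁ ⊕ κ₂) A)) := by
  set T1 := (T : Matrix (κ₁ ⊕ κ₂) (κ₁ ⊕ κ₂) A).toBlocks₁₁ with hT1
  set T2 := (T : Matrix (κ₁ ⊕ κ₂) (κ₁ ⊕ κ₂) A).toBlocks₂₂ with hT2
  set U1 := ((T⁻¹ : GL (κ₁ ⊕ κ₂) A) : Matrix (κ₁ ⊕ κ₂) (κ₁ ⊕ κ₂) A).toBlocks₁₁ with hU1
  have hTU : T1 * U1 = 1 := by
    have h1 : (T : Matrix (κ₁ ⊕ κ₂) (κ₁ ⊕ κ₂) A) * ((T⁻¹ : GL (κ₁ ⊕ κ₂) A) : Matrix (κ₁ ⊕ κ₂) (κ₁ ⊕ κ₂) A) = 1 :=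
      Units.mul_inv T
    have h2 := congrArg Matrix.toBlocks₁₁ h1
    rw [toBlocks₁₁_mul, hT', Matrix.mul_zero, add_zero, ← fromBlocks_one, toBlocks_fromBlocks₁₁] at h2
    exact h2
  have hUT : U1 * T1 = 1 := by
    have h1 : ((T⁻¹ : GL (κ₁ ⊕ κ₂) A) : Matrix (κ₁ ⊕ κ₂) (κ₁ ⊕ κ₂) A) * (T : Matrix (κ₁ ⊕ κ₂) (κ₁ ⊕ κ₂) A) = 1 :=
      Units.inv_mul T
    have h2 := congrArg Matrix.toBlocks₁₁ h1
    rw [toBlocks₁₁_mul, hT, Matrix.mul_zero, add_zero, ← fromBlocks_one, toBlocks_fromBlocks₁₁] at h2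
    exact h2
  set x : Module.End A (Matrix κ₂ κ₁ A) := lmul T2 with hx
  set y : Module.End A (Matrix κ₂ κ₁ A) := rmul U1 with hy
  set z : Module.End A (Matrix κ₂ κ₁ A) := rmul T1 with hz
  have hyz : y * z = 1 := by
    ext1 C
    show C * T1 * U1 = C
    rw [Matrix.mul_assoc, hTU, Matrix.mul_one]
  have hzy : z * y = 1 := by
    ext1 C
    show C * U1 * T1 = C
    rw [Matrix.mul_assoc, hUT, Matrix.mul_one]
  have hnil := nil2 hpA x y z (by
      ext1 C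
      exact (Matrix.mul_assoc _ _ _).symm) (by
      ext1 C
      exact (Matrix.mul_assoc _ _ _).symm) hyz hzy a b
    (by
      rw [hx, aeval_lmul]
      exact nil_lmul (nil1 _ _ hb)) (by
      rw [hz, aeval_rmul]
      exact nil_rmul (nil1 _ _ ha)) ms hms
  have hconj : ∀ Y : Matrix (κ₁ ⊕ κ₂) (κ₁ ⊕ κ₂) A, (conjL (A := A) T Y).toBlocks₂₁ = (x * y) Y.toBlocks₂₁ := by
    intro Y
    show ((T : Matrix (κ₁ ⊕ κ₂) (κ₁ ⊕ κ₂) A) * Y * ((T⁻¹ : GL (κ₁ ⊕ κ₂) A) : Matrix (κ₁ ⊕ κ₂) (κ₁ ⊕ κ₂) A)).toBlocks₂₁ =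
      T2 * (Y.toBlocks₂₁ * U1)
    rw [toBlocks₂₁_mul, hT', Matrix.mul_zero, add_zero, toBlocks₂₁_mul, hT, Matrix.zero_mul, zero_add, Matrix.mul_assoc]
  have hop : ∀ (l : List ℕ) (Y : Matrix (κ₁ ⊕ κ₂) (κ₁ ⊕ κ₂) A), (Op (conjL (A := A) T) l Y).toBlocks₂₁ =
      ((l.map fun m : ℕ => (x * y - (m : A) • (1 : Module.End A (Matrix κ₂ κ₁ A)))).prod) Y.toBlocks₂₁ := by
    intro l
    induction l with
    | nil => intro Y; rfl
    | cons m l ih =>
      intro Y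
      rw [Op_cons, List.map_cons, List.prod_cons, Module.End.mul_apply, ← ih]
      show (conjL (A := A) T (Op (conjL (A := A) T) l Y) - (m : A) • Op (conjL (A := A) T) l Y).toBlocks₂₁ = _
      have h1 : (conjL (A := A) T (Op (conjL (A := A) T) l Y) - (m : A) • Op (conjL (A := A) T) l Y).toBlocks₂₁ =
          (conjL (A := A) T (Op (conjL (A := A) T) l Y)).toBlocks₂₁ - (m : A) • (Op (conjL (A := A) T) l Y).toBlocks₂₁ := rfl
      rw [h1, hconj]
      rfl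
  obtain ⟨e, he⟩ := hnil
  refine ⟨e, fun Y => ?_⟩
  rw [mem_LL]
  have hpow : ∀ (k : ℕ) (Y : Matrix (κ₁ ⊕ κ₂) (κ₁ ⊕ κ₂) A),
      (((Op (conjL (A := A) T) ms : Module.End A (Matrix (κ₁ ⊕ κ₂) (κ₁ ⊕ κ₂) A)) ^ k) Y).toBlocks₂₁ =
      (((ms.map fun m : ℕ => (x * y - (m : A) • (1 : Module.End A (Matrix κ₂ κ₁ A)))).prod) ^ k) Y.toBlocks₂₁ := by
    intro k
    induction k with
    | zero => intro Y; rfl
    | succ k ih =>
      intro Y
      rw [pow_succ, pow_succ, Module.End.mul_apply, Module.End.mul_apply, ih, hop]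
  rw [hpow, he]
  rfl

end

end Pool.Agent.K1H81.LR
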