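import Pool.Agent.K1H81.LR.Core
import Pool.Agent.K1H81.LR.Arith
import Pool.Agent.W569.UH.Main

/-! The passage from the inertia group at `p` to the absolute Galois group of `ℚ(ζ_p)`. -/

set_option autoImplicit false

namespace Pool.Agent.K1H81.LR

open Matrix NumberField IsLocalRing Pool.Agent.W569.FM Pool.Agent.W569.UF Pool.Agent.W569.UG Pool.Agent.W569.UH

section

variable {p c : ℕ} {S : Set ℕ} {γ : GF ℚ} {P : Ideal (OO ℚ)} {A : Type} [CommRing A]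
  [IsLocalRing A] [IsNoetherianRing A] {n : ℕ}

theorem engine (hp : p.Prime) (hS : ∀ q ∈ S, q.Prime ∧ q ≠ p)
    (hc : ∀ m : ℕ, (m : ZMod p) ≠ 0 → ∃ k : ℕ, (c : ZMod p) ^ k = m)
    (hγ : ∀ z : AlgebraicClosure ℚ, z ^ p = 1 → γ z = z ^ c)
    (hP : P.IsMaximal) (hpP : (p : OO ℚ) ∈ P)
    (hfin : Finite (ResidueField A)) (hpA : (p : A) ∈ maximalIdeal A) (ρ : GF ℚ →* GL (Fin n) A)
    (hρ : ∀ k : ℕ, ∀ᶠ g in nhds (1 : GF ℚ), ME (maximalIdeal A) k ((ρ g : Matrix (Fin n) (Fin n) A) - 1))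
    (hur : ∀ P' : Ideal (OO ℚ), P'.IsMaximal → (p : OO ℚ) ∉ P' → (∀ q ∈ S, (q : OO ℚ) ∉ P') →
      ∀ τ, InInertia P' τ → ρ τ = 1)
    (hres : ∀ g ∈ HH p, ∃ M : ℕ, ∀ i j,
      (((ρ g : Matrix (Fin n) (Fin n) A) - 1) ^ M) i j ∈ maximalIdeal A)
    (s : ℕ) (L : Submodule (A ⧸ maximalIdeal A ^ (s + 1)) (Matrix (Fin n) (Fin n) (A ⧸ maximalIdeal A ^ (s + 1))))
    (hL : ∀ x ∈ L, ∀ y ∈ L, x * y ∈ L)
    (hLT : ∀ x ∈ L, conjL (A := A ⧸ maximalIdeal A ^ (s + 1))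
      (Matrix.GeneralLinearGroup.map (Ideal.Quotient.mk (maximalIdeal A ^ (s + 1))) (ρ γ)) x ∈ L)
    (hLP : ∀ τ ∈ HH p, InInertia P τ →
      ((Matrix.GeneralLinearGroup.map (Ideal.Quotient.mk (maximalIdeal A ^ (s + 1))) (ρ τ) :
        GL (Fin n) (A ⧸ maximalIdeal A ^ (s + 1))) : Matrix (Fin n) (Fin n) (A ⧸ maximalIdeal A ^ (s + 1))) - 1 ∈ L)
    (ms : List ℕ)
    (hms : ∀ m ∈ ms, ∃ a b : ℕ, (m : ZMod p) * (c : ZMod p) ^ a = (c : ZMod p) ^ b ∧ NoUnrC p a b ∧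
      ∀ q ∈ S, (q : ZMod p) ^ b ≠ (q : ZMod p) ^ (a + 1))
    (heig : ∃ e : ℕ, ∀ x : Matrix (Fin n) (Fin n) (A ⧸ maximalIdeal A ^ (s + 1)),
      ((Op (conjL (A := A ⧸ maximalIdeal A ^ (s + 1))
        (Matrix.GeneralLinearGroup.map (Ideal.Quotient.mk (maximalIdeal A ^ (s + 1))) (ρ γ))) ms :
        Module.End (A ⧸ maximalIdeal A ^ (s + 1)) (Matrix (Fin n) (Fin n) (A ⧸ maximalIdeal A ^ (s + 1)))) ^ e) x ∈ L) :
    ∀ g ∈ HH p, ((Matrix.GeneralLinearGroup.map (Ideal.Quotient.mk (maximalIdeal A ^ (s + 1))) (ρ g) :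
        GL (Fin n) (A ⧸ maximalIdeal A ^ (s + 1))) : Matrix (Fin n) (Fin n) (A ⧸ maximalIdeal A ^ (s + 1))) - 1 ∈ L := by
  intro g hg
  have hloc := quo_local (A := A) s
  have hfinA : Finite (A ⧸ maximalIdeal A ^ (s + 1)) := by
    have h0 : Finite (A ⧸ maximalIdeal A) := hfin
    exact Ideal.finite_quotient_pow (IsNoetherian.noetherian _) (s + 1)
  have hpA' : (p : A ⧸ maximalIdeal A ^ (s + 1)) ∈ maximalIdeal (A ⧸ maximalIdeal A ^ (s + 1)) := by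
    have h1 := (quo_mem s).2 hpA
    rw [map_natCast] at h1
    exact h1
  have hpnil : IsNilpotent (p : A ⧸ maximalIdeal A ^ (s + 1)) := by
    refine ⟨s + 1, ?_⟩
    have h1 := Ideal.pow_mem_pow hpA' (s + 1)
    rw [quo_pow s] at h1
    exact h1
  let ρ' : GF ℚ →* GL (Fin n) (A ⧸ maximalIdeal A ^ (s + 1)) := (Matrix.GeneralLinearGroup.map (Ideal.Quotient.mk (maximalIdeal A ^ (s + 1)))).comp ρ
  let X : HH p → Matrix (Fin n) (Fin n) (A ⧸ maximalIdeal A ^ (s + 1)) := fun h =>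
    (ρ' h : Matrix (Fin n) (Fin n) (A ⧸ maximalIdeal A ^ (s + 1))) - 1
  have hfinR : Finite (ResidueField (A ⧸ maximalIdeal A ^ (s + 1))) := by
    have : Function.Surjective (residue (A ⧸ maximalIdeal A ^ (s + 1))) := residue_surjective
    exact Finite.of_surjective _ this
  have hcore := core (A := A ⧸ maximalIdeal A ^ (s + 1)) (B := Matrix (Fin n) (Fin n) (A ⧸ maximalIdeal A ^ (s + 1))) hpnil L hL (ρ' γ) hLT
    (H := HH p) (fun h => MulAut.conjNormal γ h) X ?_ ?_ ?_ ms heig ?_ ⟨g, hg⟩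
  · exact hcore
  · -- multiplicativity
    intro g h
    show (ρ' ((g * h : HH p) : GF ℚ) : Matrix (Fin n) (Fin n) (A ⧸ maximalIdeal A ^ (s + 1))) - 1 = ((ρ' g : Matrix (Fin n) (Fin n) (A ⧸ maximalIdeal A ^ (s + 1))) - 1) +
      ((ρ' h : Matrix (Fin n) (Fin n) (A ⧸ maximalIdeal A ^ (s + 1))) - 1) + ((ρ' g : Matrix (Fin n) (Fin n) (A ⧸ maximalIdeal A ^ (s + 1))) - 1) * ((ρ' h : Matrix (Fin n) (Fin n) (A ⧸ maximalIdeal A ^ (s + 1))) - 1)
    rw [Subgroup.coe_mul, map_mul, Units.val_mul]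
    noncomm_ring
  · -- equivariance
    intro h
    have h1 : ρ' γ * ρ' h * (ρ' γ)⁻¹ = ρ' (MulAut.conjNormal γ h : HH p) := by
      rw [MulAut.conjNormal_apply, map_mul, map_mul, map_inv]
    show (ρ' γ : Matrix (Fin n) (Fin n) (A ⧸ maximalIdeal A ^ (s + 1))) * ((ρ' h : Matrix (Fin n) (Fin n) (A ⧸ maximalIdeal A ^ (s + 1))) - 1) *
      (((ρ' γ)⁻¹ : GL (Fin n) (A ⧸ maximalIdeal A ^ (s + 1))) : Matrix (Fin n) (Fin n) (A ⧸ maximalIdeal A ^ (s + 1))) =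
      (ρ' (MulAut.conjNormal γ h : HH p) : Matrix (Fin n) (Fin n) (A ⧸ maximalIdeal A ^ (s + 1))) - 1
    have h3 : ((ρ' γ * ρ' h * (ρ' γ)⁻¹ : GL (Fin n) (A ⧸ maximalIdeal A ^ (s + 1))) : Matrix (Fin n) (Fin n) (A ⧸ maximalIdeal A ^ (s + 1))) =
        (ρ' γ : Matrix (Fin n) (Fin n) (A ⧸ maximalIdeal A ^ (s + 1))) * (ρ' h : Matrix (Fin n) (Fin n) (A ⧸ maximalIdeal A ^ (s + 1))) *
        (((ρ' γ)⁻¹ : GL (Fin n) (A ⧸ maximalIdeal A ^ (s + 1))) : Matrix (Fin n) (Fin n) (A ⧸ maximalIdeal A ^ (s + 1))) := rfl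
    rw [← h1, h3, mul_sub, sub_mul, mul_one, Units.mul_inv]
  · -- nilpotency
    have hres' : ∀ g : HH p, ∃ M : ℕ, ∀ i j,
        ((((ρ'.comp (HH p).subtype) g : Matrix (Fin n) (Fin n) (A ⧸ maximalIdeal A ^ (s + 1))) - 1) ^ M) i j ∈
          maximalIdeal (A ⧸ maximalIdeal A ^ (s + 1)) := by
      intro g
      obtain ⟨M, hM⟩ := hres g g.2
      refine ⟨M, fun a b => ?_⟩
      have h1 : (((ρ' g : Matrix (Fin n) (Fin n) (A ⧸ maximalIdeal A ^ (s + 1))) - 1) ^ M) =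
          (((ρ g : Matrix (Fin n) (Fin n) A) - 1) ^ M).map (Ideal.Quotient.mk (maximalIdeal A ^ (s + 1))) := by
        have h2 : (ρ' g : Matrix (Fin n) (Fin n) (A ⧸ maximalIdeal A ^ (s + 1))) - 1 =
            (RingHom.mapMatrix (Ideal.Quotient.mk (maximalIdeal A ^ (s + 1)))) ((ρ g : Matrix (Fin n) (Fin n) A) - 1) := by
          rw [map_sub, map_one]
          rfl
        rw [h2, ← map_pow]
        rfl
      show (((ρ' g : Matrix (Fin n) (Fin n) (A ⧸ maximalIdeal A ^ (s + 1))) - 1) ^ M) a b ∈ _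
      rw [h1, Matrix.map_apply]
      exact (quo_mem s).2 (hM a b)
    have h1 := span_pow_le hp hfinR hpA' (ρ'.comp (HH p).subtype) hres'
    refine ⟨n * (s + 1), ?_⟩
    rw [eq_bot_iff]
    refine (pow_smul_le _ h1 (s + 1)).trans ?_
    rw [quo_pow s, Submodule.bot_smul]
  · -- arithmetic
    intro m hm Q _ _ Y hQ hY hYX hYγ g
    obtain ⟨a, b, hab, hno, hqS⟩ := hms m hm
    let U : Subgroup (HH p) := (ρ'.comp (HH p).subtype).ker
    have hU : IsOpen (U : Set (HH p)) := by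
      apply Subgroup.isOpen_of_mem_nhds _ (g := (1 : HH p))
      have h0 : Filter.Tendsto (fun h : HH p => (h : GF ℚ)) (nhds 1) (nhds 1) :=
        continuous_subtype_val.tendsto' 1 1 rfl
      filter_upwards [h0.eventually (hρ (s + 1))] with g hg
      exact map_eq_one hg
    have hL0 : (0 : Matrix (Fin n) (Fin n) (A ⧸ maximalIdeal A ^ (s + 1))) ∈ L := L.zero_mem
    have hX0 : ∀ h : HH p, ρ' h = 1 → Y h = 0 := by
      intro h hh
      refine hYX h ?_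
      show ((ρ' h : Matrix (Fin n) (Fin n) (A ⧸ maximalIdeal A ^ (s + 1))) - 1) ∈ L
      rw [hh, Units.val_one, sub_self]
      exact hL0
    refine arith2Q tamen Pool.Agent.W924.UF.frobp Pool.Agent.W924.UF.zeta Pool.Agent.W571.FM.main
      Pool.Agent.W398.UH.main hp hno (fun q hq => ⟨(hS q hq).1, (hS q hq).2, hqS q hq⟩) hc hab hγ hP hpP hQ Y hY
      U hU (fun h hh => hX0 h hh)
      (fun P' hP' hpP' hSP' τ hτ => hX0 τ ?_) (fun τ hτ => hYX τ (hLP τ τ.2 hτ)) hYγ g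
    show Matrix.GeneralLinearGroup.map (Ideal.Quotient.mk (maximalIdeal A ^ (s + 1))) (ρ τ) = 1
    rw [hur P' hP' hpP' hSP' τ hτ, map_one]

end

end Pool.Agent.K1H81.LR
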