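import Pool.Agent.K1H81.LR.LowB

/-! The graded pieces. -/

set_option autoImplicit false

namespace Pool.Agent.K1H81.LR

open Matrix NumberField IsLocalRing Polynomial Pool.Agent.W569.FM Pool.Agent.W569.UF Pool.Agent.W569.UG Pool.Agent.W569.UH

section
variable {A : Type} [CommRing A] {n : ℕ} {w : Fin n → ℤ} {G : Type} [Group G]

/-- the block diagonal part, twisted by the inverses of units -/
def twgf (w : Fin n → ℤ) (x : ℤ → Aˣ) (M : Matrix (Fin n) (Fin n) A) : Matrix (Fin n) (Fin n) A :=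
  fun i j => if w i = w j then (((x (w i))⁻¹ : Aˣ) : A) * M i j else 0

theorem twgf_apply (x : ℤ → Aˣ) (M : Matrix (Fin n) (Fin n) A) (i j : Fin n) :
    twgf w x M i j = if w i = w j then (((x (w i))⁻¹ : Aˣ) : A) * M i j else 0 := rfl

/-- the block diagonal part, twisted by the inverses of the characters `ψ` -/
def twg (ψ : ℤ → G →* Aˣ) (ρ : G →* GL (Fin n) A)
    (h : ∀ g, Low w (ρ g : Matrix (Fin n) (Fin n) A)) : G →* Matrix (Fin n) (Fin n) A where
  toFun g := twgf w (fun l => ψ l g) (ρ g : Matrix (Fin n) (Fin n) A)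
  map_one' := by
    ext i j
    have h1 := congrFun (congrFun (bd_one (A := A) (w := w)) i) j
    rw [bd_apply] at h1
    rw [twgf_apply, map_one, map_one, inv_one, Units.val_one, one_mul, Units.val_one, h1]
  map_mul' g g' := by
    ext i j
    have h1 := congrFun (congrFun (bd_mul (h g) (h g')) i) j
    rw [Matrix.mul_apply, bd_apply] at h1
    rw [twgf_apply, Matrix.mul_apply]
    have h3 : (if w i = w j then (((ψ (w i) (g * g'))⁻¹ : Aˣ) : A) *
        ((ρ (g * g') : GL (Fin n) A) : Matrix (Fin n) (Fin n) A) i j else 0) =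
        (((ψ (w i) (g * g'))⁻¹ : Aˣ) : A) * (if w i = w j then
          ((ρ (g * g') : GL (Fin n) A) : Matrix (Fin n) (Fin n) A) i j else 0) := by
      rw [mul_ite, mul_zero]
    rw [h3, map_mul ρ, Units.val_mul, h1, Finset.mul_sum]
    refine Finset.sum_congr rfl fun k _ => ?_
    rw [bd_apply, bd_apply, twgf_apply, twgf_apply]
    by_cases h4 : w i = w k
    · by_cases h5 : w k = w j
      · rw [if_pos h4, if_pos h4, if_pos h5, if_pos h5, map_mul, mul_inv, Units.val_mul, ← h4]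
        ring
      · rw [if_neg h5, if_neg h5, mul_zero, mul_zero, mul_zero]
    · rw [if_neg h4, if_neg h4, zero_mul, mul_zero, zero_mul]

theorem twg_apply (ψ : ℤ → G →* Aˣ) (ρ : G →* GL (Fin n) A)
    (h : ∀ g, Low w (ρ g : Matrix (Fin n) (Fin n) A)) (g : G) (i j : Fin n) :
    twg ψ ρ h g i j = if w i = w j then (((ψ (w i) g)⁻¹ : Aˣ) : A) * (ρ g : Matrix (Fin n) (Fin n) A) i j else 0 := rfl

theorem twg_map (ψ : ℤ → G →* Aˣ) (ρ : G →* GL (Fin n) A)
    (h : ∀ g, Low w (ρ g : Matrix (Fin n) (Fin n) A)) {A' : Type} [CommRing A'] (f : A →+* A')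
    (g : G) (hχ : ∀ i, f (ψ (w i) g : A) = 1) :
    (twg ψ ρ h g).map f = (bd w (ρ g : Matrix (Fin n) (Fin n) A)).map f := by
  have h1 : ∀ i, f (((ψ (w i) g)⁻¹ : Aˣ) : A) = 1 := by
    intro i
    have h2 : Units.map (f : A →* A') (ψ (w i) g) = 1 := Units.ext (hχ i)
    have h3 : Units.map (f : A →* A') (ψ (w i) g)⁻¹ = 1 := by
      rw [map_inv, h2, inv_one]
    exact congrArg Units.val h3
  ext i j
  rw [Matrix.map_apply, Matrix.map_apply, twg_apply]
  show _ = f (if w i = w j then _ else 0)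
  by_cases h2 : w i = w j
  · rw [if_pos h2, if_pos h2, map_mul, h1, one_mul]
  · rw [if_neg h2, if_neg h2]

theorem twg_unip [IsLocalRing A] (ψ : ℤ → G →* Aˣ) (ρ : G →* GL (Fin n) A)
    (h : ∀ g, Low w (ρ g : Matrix (Fin n) (Fin n) A)) (g : G)
    (hχ : ∀ i, (ψ (w i) g : A) - 1 ∈ maximalIdeal A) {k : ℕ}
    (hk : ∀ i j, (((ρ g : Matrix (Fin n) (Fin n) A) - 1) ^ k) i j ∈ maximalIdeal A) (i j : Fin n) :
    ((twg ψ ρ h g - 1) ^ k) i j ∈ maximalIdeal A := by
  have h1 : ∀ i, residue A (ψ (w i) g : A) = 1 := by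
    intro i
    rw [← sub_eq_zero, ← map_one (residue A), ← map_sub]
    exact (residue_eq_zero_iff _).2 (hχ i)
  have h2 : ((twg ψ ρ h g - 1) ^ k).map (residue A) = 0 := by
    have e1 : ((twg ψ ρ h g - 1) ^ k).map (residue A) =
        ((twg ψ ρ h g - 1).map (residue A)) ^ k :=
      map_pow (RingHom.mapMatrix (residue A)) _ _
    have e2 : (twg ψ ρ h g - 1).map (residue A) =
        (bd w ((ρ g : Matrix (Fin n) (Fin n) A) - 1)).map (residue A) := by
      have e3 : (twg ψ ρ h g - 1).map (residue A) = (twg ψ ρ h g).map (residue A) -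
          (1 : Matrix (Fin n) (Fin n) A).map (residue A) :=
        map_sub (RingHom.mapMatrix (residue A)) _ _
      have e4 : (bd w ((ρ g : Matrix (Fin n) (Fin n) A) - 1)).map (residue A) =
          (bd w (ρ g : Matrix (Fin n) (Fin n) A)).map (residue A) -
          (1 : Matrix (Fin n) (Fin n) A).map (residue A) := by
        rw [bd_sub, bd_one]
        exact map_sub (RingHom.mapMatrix (residue A)) _ _
      rw [e3, e4, twg_map ψ ρ h (residue A) g h1]
    have e5 : ((bd w ((ρ g : Matrix (Fin n) (Fin n) A) - 1)).map (residue A)) ^ k =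
        ((bd w ((ρ g : Matrix (Fin n) (Fin n) A) - 1)) ^ k).map (residue A) :=
      (map_pow (RingHom.mapMatrix (residue A)) _ _).symm
    rw [e1, e2, e5, ← bd_pow ((h g).sub Low.one), bd_map]
    have e6 : (((ρ g : Matrix (Fin n) (Fin n) A) - 1) ^ k).map (residue A) = 0 := by
      ext a b
      rw [Matrix.map_apply]
      exact (residue_eq_zero_iff _).2 (hk a b)
    rw [e6]
    ext a b
    show (if w a = w b then (0 : Matrix (Fin n) (Fin n) (ResidueField A)) a b else 0) = _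
    rw [Matrix.zero_apply, ite_self]
  have h3 := congrFun (congrFun h2 i) j
  rw [Matrix.map_apply] at h3
  exact (residue_eq_zero_iff _).1 h3

end

section

variable {p : ℕ} {S : Set ℕ} {P : Ideal (OO ℚ)} {A : Type} [CommRing A]
  [IsLocalRing A] [IsNoetherianRing A] {n : ℕ} {w : Fin n → ℤ}

theorem gradG (hp : p.Prime) (hS : ∀ q ∈ S, q.Prime ∧ q ≠ p ∧ (q : ZMod p) ≠ 1) (hP : P.IsMaximal) (hpP : (p : OO ℚ) ∈ P)
    (hfin : Finite (ResidueField A)) (hpA : (p : A) ∈ maximalIdeal A) (ρ : GF ℚ →* GL (Fin n) A)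
    (hρ : ∀ k : ℕ, ∀ᶠ g in nhds (1 : GF ℚ), ME (maximalIdeal A) k ((ρ g : Matrix (Fin n) (Fin n) A) - 1))
    (hur : ∀ P' : Ideal (OO ℚ), P'.IsMaximal → (p : OO ℚ) ∉ P' → (∀ q ∈ S, (q : OO ℚ) ∉ P') →
      ∀ τ, InInertia P' τ → ρ τ = 1)
    (hres : ∀ g ∈ HH p, ∃ M : ℕ, ∀ i j,
      (((ρ g : Matrix (Fin n) (Fin n) A) - 1) ^ M) i j ∈ maximalIdeal A)
    (ψ : ℤ → GF ℚ →* Aˣ)
    (hψ : ∀ l, ∀ k : ℕ, ∀ᶠ g in nhds (1 : GF ℚ), (ψ l g : A) - 1 ∈ maximalIdeal A ^ k)
    (hψur : ∀ l, ∀ P' : Ideal (OO ℚ), P'.IsMaximal → (p : OO ℚ) ∉ P' → (∀ q ∈ S, (q : OO ℚ) ∉ P') →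
      ∀ τ, InInertia P' τ → ψ l τ = 1)
    (hψres : ∀ l, ∀ g ∈ HH p, (ψ l g : A) - 1 ∈ maximalIdeal A)
    (hlow : ∀ g, Low w (ρ g : Matrix (Fin n) (Fin n) A))
    (hord : ∀ τ, InInertia P τ → ∀ i j, w i = w j → (ρ τ : Matrix (Fin n) (Fin n) A) i j =
      if i = j then ((ψ (w i) τ : Aˣ) : A) else 0) (g : GF ℚ) :
    ∀ i j, w i = w j → (ρ g : Matrix (Fin n) (Fin n) A) i j = if i = j then ((ψ (w i) g : Aˣ) : A) else 0 := by
  have : Fact p.Prime := ⟨hp⟩
  obtain ⟨c, hcp, hc⟩ := exists_gen hp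
  obtain ⟨γ, hγP, hγ⟩ := exists_gamma hp hcp hP hpP
  set Z := twg ψ ρ hlow with hZdef
  -- on inertia
  have hord' : ∀ τ, InInertia P τ → Z τ = 1 := by
    intro τ hτ
    ext i j
    rw [hZdef, twg_apply]
    by_cases h1 : w i = w j
    · rw [if_pos h1, hord τ hτ i j h1]
      by_cases h2 : i = j
      · subst h2
        rw [if_pos rfl, Matrix.one_apply_eq, ← Units.val_mul, inv_mul_cancel, Units.val_one]
      · rw [if_neg h2, mul_zero, Matrix.one_apply_ne h2]
    · rw [if_neg h1, Matrix.one_apply_ne (fun h2 => h1 (by rw [h2]))]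
  -- openness
  have hopen : ∀ k : ℕ, ∀ᶠ g in nhds (1 : GF ℚ),
      ME (maximalIdeal A) k (((Z.toHomUnits g : GL (Fin n) A) : Matrix (Fin n) (Fin n) A) - 1) := by
    intro k
    have h1 : ∀ᶠ g in nhds (1 : GF ℚ), ∀ i, (ψ (w i) g : A) - 1 ∈ maximalIdeal A ^ k := by
      rw [Filter.eventually_all]
      exact fun i => hψ (w i) k
    filter_upwards [hρ k, h1] with g h1 h2
    have h3 : ∀ i, (Ideal.Quotient.mk (maximalIdeal A ^ k)) (ψ (w i) g : A) = 1 := by
      intro i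
      rw [← sub_eq_zero, ← map_one (Ideal.Quotient.mk (maximalIdeal A ^ k)), ← map_sub]
      exact Ideal.Quotient.eq_zero_iff_mem.2 (h2 i)
    have h4 : (ρ g : Matrix (Fin n) (Fin n) A).map (Ideal.Quotient.mk (maximalIdeal A ^ k)) =
        1 := congrArg Units.val (map_eq_one h1)
    have h5 : (Z g).map (Ideal.Quotient.mk (maximalIdeal A ^ k)) = 1 := by
      rw [hZdef, twg_map ψ ρ hlow _ g h3, bd_map, h4, bd_one]
    intro i j
    have h6 := congrFun (congrFun h5 i) j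
    rw [Matrix.map_apply] at h6
    show (Z g - 1) i j ∈ _
    rw [Matrix.sub_apply, ← Ideal.Quotient.eq_zero_iff_mem, map_sub, h6, sub_eq_zero]
    by_cases hab : i = j
    · subst hab
      rw [Matrix.one_apply_eq, Matrix.one_apply_eq, map_one]
    · rw [Matrix.one_apply_ne hab, Matrix.one_apply_ne hab, map_zero]
  -- the ramification
  have hur' : ∀ P' : Ideal (OO ℚ), P'.IsMaximal → (p : OO ℚ) ∉ P' → (∀ q ∈ S, (q : OO ℚ) ∉ P') →
      ∀ τ, InInertia P' τ → Z.toHomUnits τ = 1 := by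
    intro P' hP' hpP' hSP' τ hτ
    apply Units.ext
    show Z τ = 1
    have h2 := hur P' hP' hpP' hSP' τ hτ
    have h3 : Z τ = bd w (1 : Matrix (Fin n) (Fin n) A) := by
      ext i j
      rw [hZdef, twg_apply, hψur _ P' hP' hpP' hSP' τ hτ, h2, inv_one, Units.val_one, Units.val_one, one_mul,
        bd_apply]
    rw [h3, bd_one]
  -- residual unipotence
  have hres' : ∀ g ∈ HH p, ∃ M : ℕ, ∀ i j, ((((Z.toHomUnits g : GL (Fin n) A) :
      Matrix (Fin n) (Fin n) A) - 1) ^ M) i j ∈ maximalIdeal A := by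
    intro g hg
    obtain ⟨M, hM⟩ := hres g hg
    exact ⟨M, fun i j => twg_unip ψ ρ hlow g (fun i => hψres _ g hg) hM i j⟩
  have hZγ : Z.toHomUnits γ = 1 := Units.ext (hord' γ hγP)
  have hH : ∀ g ∈ HH p, Z g = 1 := by
    intro g hg
    ext i j
    rw [← sub_eq_zero]
    refine krull' _ fun s => ?_
    refine Ideal.pow_le_pow_right (Nat.le_succ s) ?_
    have h1 := engine hp (fun q hq => ⟨(hS q hq).1, (hS q hq).2.1⟩) hc hγ hP hpP hfin hpA Z.toHomUnits hopen hur' hres' s ⊥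
      (fun x hx y hy => by
        rw [Submodule.mem_bot] at hx hy ⊢
        rw [hx, zero_mul]) (fun x hx => by
        rw [Submodule.mem_bot] at hx ⊢
        rw [hx, map_zero]) (fun τ _ hτ => by
        rw [Submodule.mem_bot, show Z.toHomUnits τ = 1 from Units.ext (hord' τ hτ), map_one, Units.val_one, sub_self])
      [1] (fun m hm => by
        rw [List.mem_singleton] at hm
        subst hm
        refine ⟨0, 0, by simp, nounr_self hp 0, fun q hq h => (hS q hq).2.2 ?_⟩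
        rw [pow_zero, zero_add, pow_one] at h
        exact h.symm) ⟨1, fun x => by
        rw [pow_one, Submodule.mem_bot, Op_cons, Op_nil, hZγ, map_one]
        show conjL (A := A ⧸ maximalIdeal A ^ (s + 1)) (1 : GL (Fin n) (A ⧸ maximalIdeal A ^ (s + 1))) x -
          ((1 : ℕ) : A ⧸ maximalIdeal A ^ (s + 1)) • x = 0
        rw [Nat.cast_one, one_smul, sub_eq_zero]
        show ((1 : GL (Fin n) (A ⧸ maximalIdeal A ^ (s + 1))) : Matrix (Fin n) (Fin n) (A ⧸ maximalIdeal A ^ (s + 1))) * x *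
          (((1 : GL (Fin n) (A ⧸ maximalIdeal A ^ (s + 1)))⁻¹ : GL (Fin n) (A ⧸ maximalIdeal A ^ (s + 1))) : Matrix (Fin n) (Fin n) (A ⧸ maximalIdeal A ^ (s + 1))) = x
        rw [inv_one, Units.val_one, one_mul, mul_one]⟩ g hg
    rw [Submodule.mem_bot] at h1
    have h2 := congrFun (congrFun h1 i) j
    have h3 : Ideal.Quotient.mk (maximalIdeal A ^ (s + 1)) ((Z g) i j) -
        (1 : Matrix (Fin n) (Fin n) (A ⧸ maximalIdeal A ^ (s + 1))) i j = 0 := h2
    rw [← Ideal.Quotient.eq_zero_iff_mem, map_sub, ← h3]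
    congr 1
    by_cases hab : i = j
    · subst hab
      rw [Matrix.one_apply_eq, Matrix.one_apply_eq, map_one]
    · rw [Matrix.one_apply_ne hab, Matrix.one_apply_ne hab, map_zero]
  have hG : Z g = 1 := by
    obtain ⟨t, ht, hth⟩ := Pool.Agent.W398.UH.main p hp P hP hpP g
    have h1 : g = t * (t⁻¹ * g) := by group
    rw [h1, map_mul, hord' t ht, hH _ hth, one_mul]
  intro i j hij
  have h1 := congrFun (congrFun hG i) j
  rw [hZdef, twg_apply, if_pos hij] at h1
  have h2 : (ρ g : Matrix (Fin n) (Fin n) A) i j = ((ψ (w i) g : Aˣ) : A) * (1 : Matrix (Fin n) (Fin n) A) i j := by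
    rw [← h1, ← mul_assoc, ← Units.val_mul, mul_inv_cancel, Units.val_one, one_mul]
  rw [h2]
  by_cases h3 : i = j
  · subst h3
    rw [if_pos rfl, Matrix.one_apply_eq, mul_one]
  · rw [if_neg h3, Matrix.one_apply_ne h3, mul_zero]

end

end Pool.Agent.K1H81.LR
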