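import Pool.Agent.K1H81.LR.Block

/-!
# From the inertia group at `p` to the absolute Galois group of `ℚ`

Let `p` be a prime, `K = ℚ(ζ_p)`, `S` any set of primes `q ≠ p`, `A` a Noetherian local ring with
finite residue field of characteristic `p`, and `ρ : G_ℚ → GL_n(A)` a continuous representation
which is unramified outside `S` and `p` and unipotent modulo the maximal ideal on `G_K`. Put `ω` for
the action on the `p`-th roots of unity.

Suppose that the inertia group at one prime above `p` is block triangular, with any number of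
blocks, that its diagonal block `l` is residually a successive extension of the characters
`ω ^ a i`, and that for any two indices `i`, `j` of different blocks, `i` below `j`, one has
`q ^ (a i) ≠ q ^ (a j + 1)` modulo `p` for all `q ∈ S`, and `K` has no unramified extension of degree
`p` on which `Gal(K/ℚ)` acts by `ω ^ (a i - a j)` (this is automatic if `p ≤ 7` or
`a i ≡ a j mod p - 1`). Then all of `ρ` is block triangular; and if no `q ∈ S` is `1` modulo `p`, then
every diagonal block that is scalar on the inertia group, given by a character of `G_ℚ`, is equal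
to this scalar on all of `G_ℚ`.

There is no assumption on the shape of the blocks or on the weights. For an ordinary
representation (diagonal blocks `χ ^ w`, with `χ` the cyclotomic character and arbitrary decreasing
integers `w`, or characters of a Hida family) all of `ρ` is a successive extension of the same
characters.
-/

set_option autoImplicit false

open NumberField IsLocalRing Polynomial

namespace Pool.Agent.K1H81.LR.LocalToGlobalReducibility

/-- the absolute Galois group of `ℚ`, with the Krull topology -/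
abbrev AbsGal : Type := Gal(AlgebraicClosure ℚ/ℚ)

/-- the absolute Galois group of `K = ℚ(ζ_p)`: the group of all automorphisms of the algebraic
closure of `ℚ` which fix the field generated by the `p`-th roots of unity -/
noncomputable abbrev GK (p : ℕ) : Subgroup AbsGal :=
  (IntermediateField.adjoin ℚ {z : AlgebraicClosure ℚ | z ^ p = 1}).fixingSubgroup

/-- `τ` lies in the inertia group at the prime ideal `P` of the ring of all algebraic integers -/
def InInertia (P : Ideal (𝓞 (AlgebraicClosure ℚ))) (τ : AbsGal) : Prop :=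
  ∀ x : 𝓞 (AlgebraicClosure ℚ), τ • x - x ∈ P

/-- `g` raises the `p`-th roots of unity to the power `m` -/
def ActsBy (p m : ℕ) (g : AbsGal) : Prop := ∀ z : AlgebraicClosure ℚ, z ^ p = 1 → g z = z ^ m

/-- `K = ℚ(ζ_p)` has no everywhere unramified cyclic extension of degree `p` on whose Galois group
`Gal(K/ℚ)` acts by `ω ^ (b - a)`: every homomorphism `f` with open kernel from `GK p` to `ℤ/p`
(written multiplicatively) that is trivial on all inertia groups, and such that
`m ^ a * f (g h g⁻¹) = m ^ b * f h` for all `h` in `GK p` and all `g` which raise the `p`-th roots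
of unity to the power `m`, is trivial. -/
def NoUnramifiedExtension (p a b : ℕ) : Prop :=
  ∀ f : GK p →* Multiplicative (ZMod p), IsOpen (f.ker : Set (GK p)) →
    (∀ P : Ideal (𝓞 (AlgebraicClosure ℚ)), P.IsMaximal → ∀ τ : GK p, InInertia P τ → f τ = 1) →
    (∀ (m : ℕ) (g : AbsGal), ActsBy p m g →
      ∀ h h' : GK p, (h' : AbsGal) = g * h * g⁻¹ → f h' ^ m ^ a = f h ^ m ^ b) → ∀ g, f g = 1

/-- the condition on two exponents `a`, `b` which excludes nonzero classes of `ω ^ (b - a)`,
unramified outside `S` and `p`, that vanish on the inertia group at `p` -/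
def Separated (p : ℕ) (S : Set ℕ) (a b : ℕ) : Prop :=
  (p ≤ 7 ∨ a ≡ b [MOD p - 1] ∨ NoUnramifiedExtension p a b) ∧
    ∀ q ∈ S, (q : ZMod p) ^ b ≠ (q : ZMod p) ^ (a + 1)

/-- `f` is trivial on the inertia groups at all maximal ideals which contain neither `p` nor a
prime number in `S` -/
def UnramifiedOutside {G : Type} [Group G] (p : ℕ) (S : Set ℕ) (f : AbsGal →* G) : Prop :=
  ∀ P : Ideal (𝓞 (AlgebraicClosure ℚ)), P.IsMaximal → (p : 𝓞 (AlgebraicClosure ℚ)) ∉ P →
    (∀ q ∈ S, (q : 𝓞 (AlgebraicClosure ℚ)) ∉ P) → ∀ τ, InInertia P τ → f τ = 1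

/-- For every `g` in `GK p`, the matrix `ρ g` is unipotent modulo the maximal ideal: some power of
`ρ g - 1` has all entries in the maximal ideal. -/
def ResiduallyUnipotent {n : ℕ} {A : Type} [CommRing A] [IsLocalRing A] (p : ℕ)
    (ρ : AbsGal →* GL (Fin n) A) : Prop :=
  ∀ g ∈ GK p, ∃ M : ℕ, ∀ i j,
    (((ρ g : Matrix (Fin n) (Fin n) A) - 1) ^ M) i j ∈ maximalIdeal A

/-- The diagonal block `l` of the matrix `M` (the rows and columns `i` with `b i = l`) has the
characteristic polynomial `∏ (X - m ^ a i)` over the residue field. -/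
def ResidualBlock {n : ℕ} {A : Type} [CommRing A] [IsLocalRing A] (b : Fin n → ℤ) (a : Fin n → ℕ)
    (m : ℕ) (M : Matrix (Fin n) (Fin n) A) (l : ℤ) : Prop :=
  ((M.map (residue A)).toSquareBlock b l).charpoly =
    ∏ i : {i // b i = l}, (X - C ((m : ResidueField A) ^ a i))

/-- The diagonal block `l` of the matrix `M` (the rows and columns `i` with `b i = l`) is the scalar
matrix `x`. -/
def ScalarBlock {n : ℕ} {A : Type} [CommRing A] (b : Fin n → ℤ) (l : ℤ) (x : A)
    (M : Matrix (Fin n) (Fin n) A) : Prop :=
  ∀ i j, b i = l → b j = l → M i j = if i = j then x else 0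

theorem sep {p a b : ℕ} (hp : p.Prime) {S : Set ℕ} (h : Separated p S a b) :
    Pool.Agent.K1H81.LR.Sep p S a b :=
  ⟨Pool.Agent.K1H81.LR.nounr_cases hp
    (h.1.imp_right fun h => h.imp_right fun h => Pool.Agent.K1H81.LR.noUnrC_of_elem h), h.2⟩

theorem result (p : ℕ) [Fact p.Prime] (S : Set ℕ) (hS : ∀ q ∈ S, q.Prime ∧ q ≠ p)
    (A : Type) [CommRing A] [IsLocalRing A] [IsNoetherianRing A] [TopologicalSpace A]
    (hA : IsAdic (maximalIdeal A)) (hfin : Finite (ResidueField A))
    (hp : (p : A) ∈ maximalIdeal A) (n : ℕ)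
    (ρ : AbsGal →* GL (Fin n) A) (hρ : Continuous ρ) (hur : UnramifiedOutside p S ρ)
    (hres : ResiduallyUnipotent p ρ)
    (P : Ideal (𝓞 (AlgebraicClosure ℚ))) (hP : P.IsMaximal)
    (hpP : (p : 𝓞 (AlgebraicClosure ℚ)) ∈ P)
    -- the inertia group at `P` is block triangular, with residual exponents `a`
    (b : Fin n → ℤ) (a : Fin n → ℕ)
    (hb : ∀ τ, InInertia P τ → (ρ τ : Matrix (Fin n) (Fin n) A).BlockTriangular b)
    (ha : ∀ τ, InInertia P τ → ∀ m : ℕ, ActsBy p m τ → ∀ l : ℤ, ResidualBlock b a m (ρ τ).val l)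
    (hab : ∀ i j, b j < b i → Separated p S (a j) (a i)) :
    -- all of `ρ` is block triangular
    (∀ g, (ρ g : Matrix (Fin n) (Fin n) A).BlockTriangular b) ∧
    -- and the diagonal blocks that are scalar on the inertia group at `P` are scalar
    ((∀ q ∈ S, (q : ZMod p) ≠ 1) → ∀ (l : ℤ) (ψ : AbsGal →* Aˣ), Continuous ψ →
      UnramifiedOutside p S ψ → (∀ g ∈ GK p, (ψ g : A) - 1 ∈ maximalIdeal A) →
      (∀ τ, InInertia P τ → ScalarBlock b l (ψ τ : A) (ρ τ).val) →
      ∀ g, ScalarBlock b l (ψ g : A) (ρ g).val) := by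
  have hpp : p.Prime := Fact.out
  have hopen := Pool.Agent.W569.FM.eventually_ME hA ρ hρ
  have hlow : ∀ g, (ρ g : Matrix (Fin n) (Fin n) A).BlockTriangular b := by
    intro g
    refine Pool.Agent.K1H81.LR.lowG hpp hS hP hpP hfin hp ρ hopen hur hres b a hb
      (fun τ hτ m hm l => ?_) (fun i j hij => sep hpp (hab i j hij)) g
    refine (ha τ hτ m hm l).trans ?_
    refine Finset.prod_congr rfl fun i _ => ?_
    rw [Nat.cast_pow]
  refine ⟨hlow, fun hS1 l ψ hψ hψur hψres hord g i j hi hj => ?_⟩
  exact Pool.Agent.K1H81.LR.blockG hpp hS hP hpP hfin hp ρ hopen hur hres hlow ψ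
    (Pool.Agent.K1H81.LR.ev_of_cont hA ψ hψ) hψur hψres hS1 hord g i j hi hj

end Pool.Agent.K1H81.LR.LocalToGlobalReducibility
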