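import Pool.Agent.K1H81.LR.Arith
import Pool.Agent.W569.UH.Main
import Pool.Agent.W215.FM.Gen

/-! No unramified characters in the trivial eigenspace. -/

set_option autoImplicit false

namespace Pool.Agent.K1H81.LR

open Matrix NumberField IsLocalRing Pool.Agent.W569.FM Pool.Agent.W569.UF Pool.Agent.W569.UG Pool.Agent.W569.UH

theorem exists_exp {p : ℕ} (hp : p.Prime) (g : GF ℚ) :
    ∃ m : ℕ, ∀ z : AlgebraicClosure ℚ, z ^ p = 1 → g z = z ^ m := by
  have : NeZero p := ⟨hp.ne_zero⟩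
  obtain ⟨ζ, hζ⟩ := HasEnoughRootsOfUnity.exists_primitiveRoot (AlgebraicClosure ℚ) p
  have h1 : (g ζ) ^ p = 1 := by rw [← map_pow, hζ.pow_eq_one, map_one]
  obtain ⟨m, -, hm⟩ := hζ.eq_pow_of_pow_eq_one h1
  refine ⟨m, fun z hz => ?_⟩
  obtain ⟨k, -, rfl⟩ := hζ.eq_pow_of_pow_eq_one hz
  rw [map_pow, ← hm, ← pow_mul, ← pow_mul, mul_comm]

theorem nounr_self {p : ℕ} (hp : p.Prime) (a : ℕ) : NoUnrC p a a := by
  intro f hf hunr hall
  have : Fact p.Prime := ⟨hp⟩
  have hI : S_INERT := Pool.Agent.W398.UH.main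
  obtain ⟨⟨P, hP, hpP, -⟩, hconj⟩ := Pool.Agent.W571.FM.main p hp
  -- invariance
  have hinv : ∀ (g : GF ℚ) (h : HH p), f (MulAut.conjNormal g h) = f h := by
    intro g h
    obtain ⟨m, hm⟩ := exists_exp hp g
    have h1 := hall m g hm h
    have h2 := exp_ne_zero hp hm
    have h3 := congrArg Multiplicative.toAdd h1
    rw [toAdd_pow, toAdd_pow, nsmul_eq_mul, nsmul_eq_mul] at h3
    push_cast at h3
    exact Multiplicative.toAdd.injective (mul_left_cancel₀ (pow_ne_zero a h2) h3)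
  choose t ht hth using fun g : GF ℚ => hI p hp P hP hpP g
  have key : ∀ (u : GF ℚ) (hu : InInertia P u) (h : HH p) (g : GF ℚ), g = u * h → f ⟨_, hth g⟩ = f h := by
    intro u hu h g hg
    have h1 : (t g)⁻¹ * u ∈ HH p := by
      have h2 : (t g)⁻¹ * u = (t g)⁻¹ * g * (h : GF ℚ)⁻¹ := by rw [hg]; group
      rw [h2]
      exact (HH p).mul_mem (hth g) ((HH p).inv_mem h.2)
    have h3 : f ⟨_, h1⟩ = 1 := hunr P hP ⟨_, h1⟩ (inInertia_mul (inInertia_inv (ht g)) hu)
    have h4 : (⟨_, hth g⟩ : HH p) = ⟨_, h1⟩ * h := by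
      apply Subtype.ext
      show (t g)⁻¹ * g = (t g)⁻¹ * u * h
      rw [hg, mul_assoc]
    rw [h4, map_mul, h3, one_mul]
  let F : GF ℚ →* Multiplicative (ZMod p) :=
    { toFun := fun g => f ⟨_, hth g⟩
      map_one' := by
        rw [key 1 (inInertia_mul (ht 1) (inInertia_inv (ht 1)) |> fun h => by rwa [mul_inv_cancel] at h) 1 1 (by simp), map_one]
      map_mul' := by
        intro g g'
        have h1 : g * g' = (t g * t g') * ((MulAut.conjNormal (t g')⁻¹ ⟨_, hth g⟩ * ⟨_, hth g'⟩ : HH p) : GF ℚ) := by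
          rw [Subgroup.coe_mul, MulAut.conjNormal_apply]
          show g * g' = (t g * t g') * (((t g')⁻¹ * ((t g)⁻¹ * g) * ((t g')⁻¹)⁻¹) * ((t g')⁻¹ * g'))
          group
        rw [key _ (inInertia_mul (ht g) (ht g')) _ _ h1, map_mul, hinv] }
  have hFH : ∀ h : HH p, F h = f h := fun h =>
    key 1 (inInertia_mul (ht 1) (inInertia_inv (ht 1)) |> fun h => by rwa [mul_inv_cancel] at h) h h (by rw [one_mul])
  have hFP : ∀ τ, InInertia P τ → F τ = 1 := fun τ hτ => by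
    have := key τ hτ 1 τ (by simp)
    show f ⟨_, hth τ⟩ = 1
    rw [this, map_one]
  have hF1 : ∀ g, F g = 1 := by
    refine Pool.Agent.W215.FM.main _ F ?_ ?_
    · have h1 : IsOpen ((f.ker.map (HH p).subtype : Subgroup (GF ℚ)) : Set (GF ℚ)) := by
        rw [Subgroup.coe_map]
        exact (isOpen_HH hp).isOpenMap_subtype_val _ hf
      refine Subgroup.isOpen_mono ?_ h1
      rintro _ ⟨h, hh, rfl⟩
      show F h = 1
      rw [hFH]
      exact hh
    · intro P' hP' τ hτ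
      by_cases hpP' : (p : OO ℚ) ∈ P'
      · obtain ⟨g, hg⟩ := hconj P P' hP hP' hpP hpP'
        have h1 := hFP _ (hg τ hτ)
        rw [map_mul, map_mul, map_inv, mul_comm _ (F τ), inv_mul_cancel_right] at h1
        exact h1
      · have h1 : τ ∈ HH p := mem_HH.2 fun z hz => inertia_root hp.ne_zero hP' hpP' hτ hz
        have h2 := hFH ⟨τ, h1⟩
        rw [hunr P' hP' ⟨τ, h1⟩ hτ] at h2
        exact h2
  intro g
  rw [← hFH, hF1]

end Pool.Agent.K1H81.LR
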