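import Pool.Agent.K1H81.LR.Engine
import Pool.Agent.K1H81.LR.Eig
import Pool.Agent.K1H81.LR.Self

/-! Block triangular representations. -/

set_option autoImplicit false

namespace Pool.Agent.K1H81.LR

open Matrix NumberField IsLocalRing Polynomial Pool.Agent.W569.FM Pool.Agent.W569.UF Pool.Agent.W569.UG Pool.Agent.W569.UH

section equiv

variable {A : Type} [CommRing A] {B B' : Type} [Ring B] [Algebra A B] [Ring B'] [Algebra A B']

theorem conjL_equiv (φ : B ≃ₐ[A] B') (T : Bˣ) (x : B) :
    conjL (A := A) (Units.map (φ : B →* B') T) (φ x) = φ (conjL (A := A) T x) := by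
  show φ T * φ x * (((Units.map (φ : B →* B') T)⁻¹ : B'ˣ) : B') = φ (T * x * ((T⁻¹ : Bˣ) : B))
  rw [map_mul, map_mul]
  rfl

theorem Op_equiv (φ : B ≃ₐ[A] B') (T : Bˣ) (ms : List ℕ) (x : B) :
    Op (conjL (A := A) (Units.map (φ : B →* B') T)) ms (φ x) = φ (Op (conjL (A := A) T) ms x) := by
  induction ms generalizing x with
  | nil => rfl
  | cons m ms ih =>
    rw [Op_cons, Op_cons]
    show conjL (A := A) (Units.map (φ : B →* B') T) (Op _ ms (φ x)) - (m : A) • Op _ ms (φ x) =
      φ (conjL (A := A) T (Op _ ms x) - (m : A) • Op _ ms x)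
    rw [ih, conjL_equiv, map_sub, map_smul]

theorem Op_pow_equiv (φ : B ≃ₐ[A] B') (T : Bˣ) (ms : List ℕ) (e : ℕ) (x : B) :
    ((Op (conjL (A := A) (Units.map (φ : B →* B') T)) ms : Module.End A B') ^ e) (φ x) =
      φ (((Op (conjL (A := A) T) ms : Module.End A B) ^ e) x) := by
  induction e generalizing x with
  | zero => rfl
  | succ e ih =>
    rw [pow_succ, pow_succ, Module.End.mul_apply, Module.End.mul_apply, Op_equiv, ih]

end equiv

section charpoly

theorem charpoly_block {n : ℕ} {k : Type} [CommRing k] [Nontrivial k] (M : Matrix (Fin n) (Fin n) k) (b : Fin n → ℤ)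
    (hM : M.BlockTriangular b) (f : Fin n → k[X])
    (hf : ∀ l, (M.toSquareBlock b l).charpoly = ∏ i : {i // b i = l}, f i)
    (Q : ℤ → Prop) [DecidablePred Q] :
    (M.submatrix (fun i : {i // Q (b i)} => (i : Fin n)) (fun i : {i // Q (b i)} => (i : Fin n))).charpoly =
      ∏ i : {i // Q (b i)}, f i := by
  classical
  set b' : {i // Q (b i)} → ℤ := fun i => b i with hb'
  have h1 : (M.submatrix (fun i : {i // Q (b i)} => (i : Fin n)) (fun i : {i // Q (b i)} => (i : Fin n))).BlockTriangular b' := by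
    intro i j hij
    exact hM hij
  rw [h1.charpoly, ← Finset.prod_fiberwise_of_maps_to (s := Finset.univ) (t := Finset.image b' Finset.univ) (g := b')
    (fun i _ => Finset.mem_image_of_mem _ (Finset.mem_univ i))]
  refine Finset.prod_congr rfl fun l hl => ?_
  obtain ⟨i0, -, hi0⟩ := Finset.mem_image.1 hl
  have hQl : Q l := by rw [← hi0]; exact i0.2
  let e : {x : {i // Q (b i)} // b' x = l} ≃ {i // b i = l} :=
    { toFun := fun x => ⟨x.1.1, x.2⟩
      invFun := fun x => ⟨⟨x.1, by rw [x.2]; exact hQl⟩, x.2⟩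
      left_inv := fun x => rfl
      right_inv := fun x => rfl }
  have h2 : ((M.submatrix (fun i : {i // Q (b i)} => (i : Fin n)) (fun i : {i // Q (b i)} => (i : Fin n))).toSquareBlock b' l) =
      (M.toSquareBlock b l).submatrix e e := rfl
  have h3 : ((M.toSquareBlock b l).submatrix e e).charpoly = (M.toSquareBlock b l).charpoly := by
    have := Matrix.charpoly_reindex e.symm (M.toSquareBlock b l)
    rw [Matrix.reindex_apply, Equiv.symm_symm] at this
    exact this
  rw [h2, h3, hf l]
  rw [← Fintype.prod_equiv e (fun x => f x.1.1) (fun i => f i) (fun x => rfl)]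
  rw [Finset.prod_subtype (s := Finset.univ.filter fun x : {i // Q (b i)} => b' x = l) (p := fun x => b' x = l)
    (fun x => by simp) (fun x => f x.1)]

end charpoly

end Pool.Agent.K1H81.LR
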