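import Pool.Agent.K1H81.LR.Low

/-! Block triangular representations: the main theorem. -/

set_option autoImplicit false

namespace Pool.Agent.K1H81.LR

open Matrix NumberField IsLocalRing Polynomial Pool.Agent.W569.FM Pool.Agent.W569.UF Pool.Agent.W569.UG Pool.Agent.W569.UH

theorem exists_gen {p : ℕ} (hp : p.Prime) : ∃ c : ℕ, Nat.Coprime c p ∧ ∀ m : ℕ, (m : ZMod p) ≠ 0 → ∃ k : ℕ, (c : ZMod p) ^ k = m := by
  have : Fact p.Prime := ⟨hp⟩
  obtain ⟨g, hg⟩ := IsCyclic.exists_monoid_generator (α := (ZMod p)ˣ)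
  refine ⟨(g : ZMod p).val, ZMod.val_coe_unit_coprime g, fun m hm => ?_⟩
  obtain ⟨k, hk⟩ := hg (Units.mk0 (m : ZMod p) hm)
  refine ⟨k, ?_⟩
  have h1 := congrArg Units.val hk
  simp only [Units.val_pow_eq_pow_val, Units.val_mk0] at h1
  rw [ZMod.natCast_zmod_val]
  exact h1

theorem exists_gamma {p c : ℕ} (hp : p.Prime) (hc : Nat.Coprime c p) {P : Ideal (OO ℚ)} (hP : P.IsMaximal)
    (hpP : (p : OO ℚ) ∈ P) : ∃ γ, InInertia P γ ∧ ∀ z : AlgebraicClosure ℚ, z ^ p = 1 → γ z = z ^ c := by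
  obtain ⟨γ0, hγ0⟩ := Pool.Agent.W924.UF.zeta.2 p c hp hc
  obtain ⟨γ, hγP, hγH⟩ := Pool.Agent.W398.UH.main p hp P hP hpP γ0
  refine ⟨γ, hγP, fun z hz => ?_⟩
  have h1 := mem_HH.1 hγH z hz
  have h2 : γ ((γ⁻¹ * γ0) z) = γ0 z := by
    show (γ * (γ⁻¹ * γ0)) z = γ0 z
    rw [mul_inv_cancel_left]
  rw [h1] at h2
  rw [h2, hγ0 z hz]

/-- the matrices whose lower left block for the threshold `t` vanishes -/
def LT {A : Type} [CommRing A] {n : ℕ} (b : Fin n → ℤ) (t : ℤ) : Submodule A (Matrix (Fin n) (Fin n) A) where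
  carrier := {X | ∀ i j, t ≤ b i → b j < t → X i j = 0}
  add_mem' := by
    intro X Y hX hY i j hi hj
    rw [Matrix.add_apply, hX i j hi hj, hY i j hi hj, add_zero]
  zero_mem' := fun i j _ _ => rfl
  smul_mem' := by
    intro a X hX i j hi hj
    rw [Matrix.smul_apply, hX i j hi hj, smul_zero]

theorem mem_LT {A : Type} [CommRing A] {n : ℕ} {b : Fin n → ℤ} {t : ℤ} {X : Matrix (Fin n) (Fin n) A} :
    X ∈ LT b t ↔ ∀ i j, t ≤ b i → b j < t → X i j = 0 := Iff.rfl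

theorem LT_mul {A : Type} [CommRing A] {n : ℕ} {b : Fin n → ℤ} {t : ℤ} {X Y : Matrix (Fin n) (Fin n) A}
    (hX : X ∈ LT b t) (hY : Y ∈ LT b t) : X * Y ∈ LT b t := by
  intro i j hi hj
  rw [Matrix.mul_apply]
  refine Finset.sum_eq_zero fun k _ => ?_
  by_cases hk : b k < t
  · rw [hX i k hi hk, zero_mul]
  · rw [hY k j (not_lt.1 hk) hj, mul_zero]

theorem LT_of_block {A : Type} [CommRing A] {n : ℕ} {b : Fin n → ℤ} (t : ℤ) {X : Matrix (Fin n) (Fin n) A}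
    (hX : X.BlockTriangular b) : X ∈ LT b t := fun _ _ hi hj => hX (lt_of_lt_of_le hj hi)

theorem block_of_LT {A : Type} [CommRing A] {n : ℕ} {b : Fin n → ℤ} {X : Matrix (Fin n) (Fin n) A}
    (hX : ∀ t, X ∈ LT b t) : X.BlockTriangular b := fun i j hij => hX (b i) i j le_rfl hij

section
variable {A : Type} [CommRing A] [IsLocalRing A] [Finite A] {n : ℕ}

/-- the eigenvalues of the conjugation on the quotient by `LT b t` -/
theorem eigT {p : ℕ} (hpA : IsNilpotent (p : A)) (b : Fin n → ℤ) (t : ℤ) (T : GL (Fin n) A)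
    (hT : (T : Matrix (Fin n) (Fin n) A).BlockTriangular b)
    (hT' : ((T⁻¹ : GL (Fin n) A) : Matrix (Fin n) (Fin n) A).BlockTriangular b) (a : Fin n → ℕ)
    (ha : ∀ l, (((T : Matrix (Fin n) (Fin n) A).map (residue A)).toSquareBlock b l).charpoly =
      ∏ i : {i // b i = l}, (X - C ((a i : ℕ) : ResidueField A)))
    (ms : List ℕ) (hms : ∀ i j, b i < t → t ≤ b j → ∃ m ∈ ms, ((m * a i : ℕ) : ZMod p) = (a j : ℕ)) :
    ∃ e : ℕ, ∀ x : Matrix (Fin n) (Fin n) A,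
      ((Op (conjL (A := A) T) ms : Module.End A (Matrix (Fin n) (Fin n) A)) ^ e) x ∈ LT b t := by
  classical
  set e0 : {i // b i < t} ⊕ {i // ¬ b i < t} ≃ Fin n := Equiv.sumCompl (fun i => b i < t) with he0
  let φ : Matrix (Fin n) (Fin n) A ≃ₐ[A] Matrix ({i // b i < t} ⊕ {i // ¬ b i < t}) ({i // b i < t} ⊕ {i // ¬ b i < t}) A :=
    Matrix.reindexAlgEquiv A A e0.symm
  have hφ : ∀ (M : Matrix (Fin n) (Fin n) A) (i j), φ M i j = M (e0 i) (e0 j) := fun M i j => rfl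
  have hTT : ∀ M : Matrix (Fin n) (Fin n) A, M.BlockTriangular b → (φ M).toBlocks₂₁ = 0 := by
    intro M hM
    ext i j
    show M (e0 (Sum.inr i)) (e0 (Sum.inl j)) = 0
    exact hM (lt_of_lt_of_le j.2 (not_lt.1 i.2))
  have hres : ((T : Matrix (Fin n) (Fin n) A).map (residue A)).BlockTriangular b := by
    intro i j hij
    rw [Matrix.map_apply, hT hij, map_zero]
  have h1 := charpoly_block _ b hres (fun i => X - C ((a i : ℕ) : ResidueField A)) ha (fun l => l < t)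
  have h2 := charpoly_block _ b hres (fun i => X - C ((a i : ℕ) : ResidueField A)) ha (fun l => ¬ l < t)
  let T' : GL ({i // b i < t} ⊕ {i // ¬ b i < t}) A :=
    Units.map (φ : Matrix (Fin n) (Fin n) A →* Matrix ({i // b i < t} ⊕ {i // ¬ b i < t}) ({i // b i < t} ⊕ {i // ¬ b i < t}) A) T
  obtain ⟨e, he⟩ := eig (κ₁ := {i // b i < t}) (κ₂ := {i // ¬ b i < t}) hpA T' (hTT _ hT) (hTT _ hT')
    (fun i => a i.1) (fun i => a i.1) h1 h2 ms (fun i j => hms i j i.2 (not_lt.1 j.2))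
  refine ⟨e, fun x => ?_⟩
  have h3 := he (φ x)
  rw [Op_pow_equiv, mem_LL] at h3
  intro i j hi hj
  exact congrFun (congrFun h3 ⟨i, not_lt.2 hi⟩) ⟨j, hj⟩

end

section

variable {p : ℕ} {S : Set ℕ} {P : Ideal (OO ℚ)} {A : Type} [CommRing A]
  [IsLocalRing A] [IsNoetherianRing A] {n : ℕ}

theorem quo_charpoly (s : ℕ) [IsLocalRing (A ⧸ maximalIdeal A ^ (s + 1))] {κ : Type} [Fintype κ] [DecidableEq κ]
    (M : Matrix κ κ A) (f : κ → ℕ)
    (h : (M.map (residue A)).charpoly = ∏ i, (X - C ((f i : ℕ) : ResidueField A))) :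
    ((M.map (Ideal.Quotient.mk (maximalIdeal A ^ (s + 1)))).map (residue (A ⧸ maximalIdeal A ^ (s + 1)))).charpoly =
      ∏ i, (X - C ((f i : ℕ) : ResidueField (A ⧸ maximalIdeal A ^ (s + 1)))) := by
  have hloc : IsLocalHom (Ideal.Quotient.mk (maximalIdeal A ^ (s + 1))) := by
    constructor
    intro a ha
    by_contra hna
    have h1 : a ∈ maximalIdeal A := hna
    exact ((quo_mem s).2 h1) ha
  have h1 : ((M.map (Ideal.Quotient.mk (maximalIdeal A ^ (s + 1)))).map (residue (A ⧸ maximalIdeal A ^ (s + 1)))) =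
      (M.map (residue A)).map (ResidueField.map (Ideal.Quotient.mk (maximalIdeal A ^ (s + 1)))) := by
    ext i j
    simp only [Matrix.map_apply]
    rw [ResidueField.map_residue]
  rw [h1, Matrix.charpoly_map, h, Polynomial.map_prod]
  refine Finset.prod_congr rfl fun i _ => ?_
  simp

theorem lowH (hp : p.Prime) (hS : ∀ q ∈ S, q.Prime ∧ q ≠ p) (hP : P.IsMaximal) (hpP : (p : OO ℚ) ∈ P)
    (hfin : Finite (ResidueField A)) (hpA : (p : A) ∈ maximalIdeal A) (ρ : GF ℚ →* GL (Fin n) A)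
    (hρ : ∀ k : ℕ, ∀ᶠ g in nhds (1 : GF ℚ), ME (maximalIdeal A) k ((ρ g : Matrix (Fin n) (Fin n) A) - 1))
    (hur : ∀ P' : Ideal (OO ℚ), P'.IsMaximal → (p : OO ℚ) ∉ P' → (∀ q ∈ S, (q : OO ℚ) ∉ P') →
      ∀ τ, InInertia P' τ → ρ τ = 1)
    (hres : ∀ g ∈ HH p, ∃ M : ℕ, ∀ i j,
      (((ρ g : Matrix (Fin n) (Fin n) A) - 1) ^ M) i j ∈ maximalIdeal A)
    (b : Fin n → ℤ) (a : Fin n → ℕ)
    (hb : ∀ τ, InInertia P τ → (ρ τ : Matrix (Fin n) (Fin n) A).BlockTriangular b)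
    (ha : ∀ τ, InInertia P τ → ∀ m : ℕ, (∀ z : AlgebraicClosure ℚ, z ^ p = 1 → τ z = z ^ m) → ∀ l : ℤ,
      (((ρ τ : Matrix (Fin n) (Fin n) A).map (residue A)).toSquareBlock b l).charpoly =
        ∏ i : {i // b i = l}, (X - C ((m ^ a i : ℕ) : ResidueField A)))
    (hab : ∀ i j, b j < b i → NoUnrC p (a j) (a i) ∧ ∀ q ∈ S, (q : ZMod p) ^ a i ≠ (q : ZMod p) ^ (a j + 1)) :
    ∀ g ∈ HH p, (ρ g : Matrix (Fin n) (Fin n) A).BlockTriangular b := by
  intro g hg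
  have : Fact p.Prime := ⟨hp⟩
  obtain ⟨c, hcp, hc⟩ := exists_gen hp
  obtain ⟨γ, hγP, hγ⟩ := exists_gamma hp hcp hP hpP
  refine block_of_LT fun t => ?_
  intro i j hi hj
  refine krull' _ fun s => ?_
  refine Ideal.pow_le_pow_right (Nat.le_succ s) ?_
  have hloc := quo_local (A := A) s
  have hfinA : Finite (A ⧸ maximalIdeal A ^ (s + 1)) := by
    have h0 : Finite (A ⧸ maximalIdeal A) := hfin
    exact Ideal.finite_quotient_pow (IsNoetherian.noetherian _) (s + 1)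
  have hpA' : (p : A ⧸ maximalIdeal A ^ (s + 1)) ∈ maximalIdeal (A ⧸ maximalIdeal A ^ (s + 1)) := by
    have h1 := (quo_mem s).2 hpA
    rw [map_natCast] at h1
    exact h1
  have hpnil : IsNilpotent (p : A ⧸ maximalIdeal A ^ (s + 1)) := by
    refine ⟨s + 1, ?_⟩
    have h1 := Ideal.pow_mem_pow hpA' (s + 1)
    rw [quo_pow s] at h1
    exact h1
  have hc0 : (c : ZMod p) ≠ 0 := by
    intro h
    have h1 := (ZMod.natCast_eq_zero_iff c p).1 h
    exact hp.one_lt.ne' (Nat.dvd_one.1 (by rw [← hcp]; exact Nat.dvd_gcd h1 dvd_rfl))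
  have hblk : ∀ τ, InInertia P τ → ((Matrix.GeneralLinearGroup.map (Ideal.Quotient.mk (maximalIdeal A ^ (s + 1))) (ρ τ) :
        GL (Fin n) (A ⧸ maximalIdeal A ^ (s + 1))) : Matrix (Fin n) (Fin n) (A ⧸ maximalIdeal A ^ (s + 1))).BlockTriangular b := by
    intro τ hτ i j hij
    show Ideal.Quotient.mk (maximalIdeal A ^ (s + 1)) ((ρ τ : Matrix (Fin n) (Fin n) A) i j) = 0
    rw [hb τ hτ hij, map_zero]
  have hinv : ((Matrix.GeneralLinearGroup.map (Ideal.Quotient.mk (maximalIdeal A ^ (s + 1))) (ρ γ))⁻¹ :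
      GL (Fin n) (A ⧸ maximalIdeal A ^ (s + 1))) = Matrix.GeneralLinearGroup.map (Ideal.Quotient.mk (maximalIdeal A ^ (s + 1))) (ρ γ⁻¹) := by
    rw [map_inv, map_inv]
  set m0 : Fin n × Fin n → ℕ := fun x => ((c : ZMod p) ^ a x.1 * ((c : ZMod p) ^ a x.2)⁻¹).val with hm0
  have hm0' : ∀ x, (m0 x : ZMod p) * (c : ZMod p) ^ a x.2 = (c : ZMod p) ^ a x.1 := by
    intro x
    rw [hm0, ZMod.natCast_zmod_val, inv_mul_cancel_right₀ (pow_ne_zero _ hc0)]
  set ms : List ℕ := ((Finset.univ.filter fun x : Fin n × Fin n => b x.2 < b x.1).toList.map m0) with hms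
  have heig := eigT (A := A ⧸ maximalIdeal A ^ (s + 1)) hpnil b t
    (Matrix.GeneralLinearGroup.map (Ideal.Quotient.mk (maximalIdeal A ^ (s + 1))) (ρ γ)) (hblk γ hγP)
    (by rw [hinv]; exact hblk γ⁻¹ (inInertia_inv hγP)) (fun i => c ^ a i)
    (fun l => quo_charpoly s ((ρ γ : Matrix (Fin n) (Fin n) A).toSquareBlock b l) (fun i : {i // b i = l} => c ^ a i)
      (ha γ hγP c hγ l)) ms (fun i j hi hj => by
      refine ⟨m0 (j, i), ?_, ?_⟩
      · rw [hms]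
        refine List.mem_map_of_mem ?_
        rw [Finset.mem_toList, Finset.mem_filter]
        exact ⟨Finset.mem_univ _, lt_of_lt_of_le hi hj⟩
      · have h1 := hm0' (j, i)
        push_cast
        exact h1)
  have h1 := engine hp hS hc hγ hP hpP hfin hpA ρ hρ hur hres s (LT b t) (fun x hx y hy => LT_mul hx hy) ?_ ?_ ms ?_ heig
    g hg
  · have h2 := h1 i j hi hj
    rw [Matrix.sub_apply, Matrix.one_apply_ne (fun h => by rw [h] at hi; exact absurd hj (not_lt.2 hi)), sub_zero] at h2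
    exact Ideal.Quotient.eq_zero_iff_mem.1 h2
  · intro x hx
    refine LT_mul (LT_mul (LT_of_block t (hblk γ hγP)) hx) ?_
    rw [hinv]
    exact LT_of_block t (hblk γ⁻¹ (inInertia_inv hγP))
  · intro τ _ hτ
    refine Submodule.sub_mem _ (LT_of_block t (hblk τ hτ)) (LT_of_block t ?_)
    exact Matrix.blockTriangular_one
  · intro m hm
    rw [hms] at hm
    obtain ⟨x, hx, rfl⟩ := List.mem_map.1 hm
    rw [Finset.mem_toList, Finset.mem_filter] at hx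
    obtain ⟨h2, h3⟩ := hab x.1 x.2 hx.2
    exact ⟨a x.2, a x.1, hm0' x, h2, h3⟩

theorem lowG (hp : p.Prime) (hS : ∀ q ∈ S, q.Prime ∧ q ≠ p) (hP : P.IsMaximal) (hpP : (p : OO ℚ) ∈ P)
    (hfin : Finite (ResidueField A)) (hpA : (p : A) ∈ maximalIdeal A) (ρ : GF ℚ →* GL (Fin n) A)
    (hρ : ∀ k : ℕ, ∀ᶠ g in nhds (1 : GF ℚ), ME (maximalIdeal A) k ((ρ g : Matrix (Fin n) (Fin n) A) - 1))
    (hur : ∀ P' : Ideal (OO ℚ), P'.IsMaximal → (p : OO ℚ) ∉ P' → (∀ q ∈ S, (q : OO ℚ) ∉ P') →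
      ∀ τ, InInertia P' τ → ρ τ = 1)
    (hres : ∀ g ∈ HH p, ∃ M : ℕ, ∀ i j,
      (((ρ g : Matrix (Fin n) (Fin n) A) - 1) ^ M) i j ∈ maximalIdeal A)
    (b : Fin n → ℤ) (a : Fin n → ℕ)
    (hb : ∀ τ, InInertia P τ → (ρ τ : Matrix (Fin n) (Fin n) A).BlockTriangular b)
    (ha : ∀ τ, InInertia P τ → ∀ m : ℕ, (∀ z : AlgebraicClosure ℚ, z ^ p = 1 → τ z = z ^ m) → ∀ l : ℤ,
      (((ρ τ : Matrix (Fin n) (Fin n) A).map (residue A)).toSquareBlock b l).charpoly =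
        ∏ i : {i // b i = l}, (X - C ((m ^ a i : ℕ) : ResidueField A)))
    (hab : ∀ i j, b j < b i → NoUnrC p (a j) (a i) ∧ ∀ q ∈ S, (q : ZMod p) ^ a i ≠ (q : ZMod p) ^ (a j + 1)) (g : GF ℚ) :
    (ρ g : Matrix (Fin n) (Fin n) A).BlockTriangular b := by
  obtain ⟨t, ht, hth⟩ := Pool.Agent.W398.UH.main p hp P hP hpP g
  have h1 : g = t * (t⁻¹ * g) := by group
  rw [h1, map_mul, Units.val_mul]
  exact (hb t ht).mul (lowH hp hS hP hpP hfin hpA ρ hρ hur hres b a hb ha hab _ hth)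

end

end Pool.Agent.K1H81.LR
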