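import Pool.Agent.K1H81.LR.Grad

/-! Ordinary representations. -/

set_option autoImplicit false

namespace Pool.Agent.K1H81.LR

open Matrix NumberField IsLocalRing Polynomial Pool.Agent.W569.FM Pool.Agent.W569.UF Pool.Agent.W569.UG Pool.Agent.W569.UH

/-- the arithmetic condition -/
def Sep (p : ℕ) (S : Set ℕ) (a b : ℕ) : Prop :=
  NoUnrC p a b ∧ ∀ q ∈ S, (q : ZMod p) ^ b ≠ (q : ZMod p) ^ (a + 1)

section

variable {p : ℕ} {S : Set ℕ} {P : Ideal (OO ℚ)} {A : Type} [CommRing A]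
  [IsLocalRing A] [IsNoetherianRing A] {n : ℕ} {b : Fin n → ℤ}

theorem ordG (hp : p.Prime) (hS : ∀ q ∈ S, q.Prime ∧ q ≠ p) (hP : P.IsMaximal) (hpP : (p : OO ℚ) ∈ P)
    (hfin : Finite (ResidueField A)) (hpA : (p : A) ∈ maximalIdeal A) (ρ : GF ℚ →* GL (Fin n) A)
    (hρ : ∀ k : ℕ, ∀ᶠ g in nhds (1 : GF ℚ), ME (maximalIdeal A) k ((ρ g : Matrix (Fin n) (Fin n) A) - 1))
    (hur : ∀ P' : Ideal (OO ℚ), P'.IsMaximal → (p : OO ℚ) ∉ P' → (∀ q ∈ S, (q : OO ℚ) ∉ P') →
      ∀ τ, InInertia P' τ → ρ τ = 1)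
    (hres : ∀ g ∈ HH p, ∃ M : ℕ, ∀ i j,
      (((ρ g : Matrix (Fin n) (Fin n) A) - 1) ^ M) i j ∈ maximalIdeal A)
    (ψ : ℤ → GF ℚ →* Aˣ)
    (hψ : ∀ l, ∀ k : ℕ, ∀ᶠ g in nhds (1 : GF ℚ), (ψ l g : A) - 1 ∈ maximalIdeal A ^ k)
    (hψur : ∀ l, ∀ P' : Ideal (OO ℚ), P'.IsMaximal → (p : OO ℚ) ∉ P' → (∀ q ∈ S, (q : OO ℚ) ∉ P') →
      ∀ τ, InInertia P' τ → ψ l τ = 1) (a : ℤ → ℕ)
    (hψres : ∀ l, ∀ (g : GF ℚ) (m : ℕ), (∀ z : AlgebraicClosure ℚ, z ^ p = 1 → g z = z ^ m) →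
      (ψ l g : A) - (m : A) ^ a l ∈ maximalIdeal A)
    (hord : ∀ τ, InInertia P τ → ∀ i j, b j ≤ b i → (ρ τ : Matrix (Fin n) (Fin n) A) i j =
      if i = j then ((ψ (b i) τ : Aˣ) : A) else 0)
    (hS1 : ∀ q ∈ S, (q : ZMod p) ≠ 1)
    (hab : ∀ i j, b j < b i → Sep p S (a (b j)) (a (b i))) (g : GF ℚ) :
    ∀ i j, b j ≤ b i → (ρ g : Matrix (Fin n) (Fin n) A) i j = if i = j then ((ψ (b i) g : Aˣ) : A) else 0 := by
  have hlow := lowG hp hS hP hpP hfin hpA ρ hρ hur hres b (fun i => a (b i)) (fun τ hτ i j hij => by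
      rw [hord τ hτ i j hij.le, if_neg (fun h => by rw [h] at hij; exact lt_irrefl _ hij)])
    (fun τ hτ m hm l => by
      have h1 : ((ρ τ : Matrix (Fin n) (Fin n) A).map (residue A)).toSquareBlock b l =
          Matrix.diagonal fun _ : {i // b i = l} => residue A (ψ l τ : A) := by
        ext i j
        show residue A ((ρ τ : Matrix (Fin n) (Fin n) A) i j) = _
        rw [hord τ hτ i j (by rw [i.2, j.2])]
        by_cases h : i = j
        · subst h
          rw [if_pos rfl, Matrix.diagonal_apply_eq, i.2]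
        · rw [if_neg (fun h' => h (Subtype.ext h')), map_zero, Matrix.diagonal_apply_ne _ h]
      rw [h1, Matrix.charpoly_diagonal]
      refine Finset.prod_congr rfl fun i _ => ?_
      have h2 : residue A (ψ l τ : A) = ((m ^ a (b i) : ℕ) : ResidueField A) := by
        rw [i.2, ← sub_eq_zero, Nat.cast_pow, ← map_natCast (residue A) m, ← map_pow, ← map_sub]
        exact (residue_eq_zero_iff _).2 (hψres l τ m hm)
      rw [h2]) hab
  have hgr := gradG (w := fun i => -b i) hp (fun q hq => ⟨(hS q hq).1, (hS q hq).2, hS1 q hq⟩) hP hpP hfin hpA ρ hρ hur hres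
    (fun l => ψ (-l)) (fun l => hψ (-l)) (fun l => hψur (-l)) (fun l g hg => by
      have h1 := hψres (-l) g 1 (fun z hz => by rw [pow_one]; exact mem_HH.1 hg z hz)
      rw [Nat.cast_one, one_pow] at h1
      exact h1) (fun g i j hij => hlow g (by
        have h1 : -b i < -b j := hij
        omega)) (fun τ hτ i j hij => by
        have h1 : -b i = -b j := hij
        rw [neg_neg]
        exact hord τ hτ i j (by omega)) g
  intro i j hij
  rcases hij.lt_or_eq with h | h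
  · rw [hlow g h, if_neg (fun h' => by rw [h'] at h; exact lt_irrefl _ h)]
  · have h1 := hgr i j (by show -b i = -b j; rw [h])
    rw [neg_neg] at h1
    exact h1

theorem noUnrC_of_elem {p a b : ℕ} (h : ∀ f : HH p →* Multiplicative (ZMod p), IsOpen (f.ker : Set (HH p)) →
    (∀ P : Ideal (OO ℚ), P.IsMaximal → ∀ τ : HH p, InInertia P (τ : GF ℚ) → f τ = 1) →
    (∀ (m : ℕ) (g : GF ℚ), (∀ z : AlgebraicClosure ℚ, z ^ p = 1 → g z = z ^ m) →
      ∀ h h' : HH p, (h' : GF ℚ) = g * h * g⁻¹ → f h' ^ m ^ a = f h ^ m ^ b) → ∀ g, f g = 1) : NoUnrC p a b := by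
  intro f hf hP hall
  refine h f hf hP fun m g hg x x' hx => ?_
  have h1 := hall m g hg x
  have h2 : MulAut.conjNormal g x = x' := by
    apply Subtype.ext
    rw [MulAut.conjNormal_apply]
    exact hx.symm
  rw [h2] at h1
  exact h1

theorem ev_of_cont {A : Type} [CommRing A] [TopologicalSpace A] {I : Ideal A} (hA : IsAdic I) (ψ : GF ℚ →* Aˣ)
    (hψ : Continuous ψ) (k : ℕ) : ∀ᶠ g in nhds (1 : GF ℚ), (ψ g : A) - 1 ∈ I ^ k := by
  have h1 : Continuous fun g => (ψ g : A) := Units.continuous_val.comp hψ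
  have h2 := h1.continuousAt (x := (1 : GF ℚ))
  rw [ContinuousAt, map_one, Units.val_one] at h2
  have h3 := h2.eventually ((hA.hasBasis_nhds (1 : A)).mem_of_mem (i := k) trivial)
  filter_upwards [h3] with g hg
  obtain ⟨y, hy, hy'⟩ := hg
  have h4 : (ψ g : A) = 1 + y := hy'.symm
  rw [h4, add_sub_cancel_left]
  exact hy

/-- an exponent modulo `p - 1` -/
theorem zpow_mod {p : ℕ} [Fact p.Prime] {u : ZMod p} (hu : u ≠ 0) (l : ℤ) :
    u ^ (l % ((p : ℤ) - 1)).toNat = u ^ l := by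
  have hp := (Fact.out : p.Prime)
  have h0 : (0 : ℤ) < (p : ℤ) - 1 := by
    have := hp.one_lt
    omega
  have h1 : (((l % ((p : ℤ) - 1)).toNat : ℕ) : ℤ) = l % ((p : ℤ) - 1) := Int.toNat_of_nonneg (Int.emod_nonneg _ h0.ne')
  rw [← zpow_natCast, h1]
  have h2 : l = l % ((p : ℤ) - 1) + ((p : ℤ) - 1) * (l / ((p : ℤ) - 1)) := (Int.emod_add_mul_ediv l _).symm
  conv_rhs => rw [h2]
  rw [zpow_add₀ hu, _root_.zpow_mul]
  have h3 : u ^ ((p : ℤ) - 1) = 1 := by
    have h4 : ((p : ℤ) - 1) = ((p - 1 : ℕ) : ℤ) := by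
      have := hp.one_lt
      omega
    rw [h4, zpow_natCast, ZMod.pow_card_sub_one_eq_one hu]
  rw [h3, _root_.one_zpow, mul_one]

theorem noUnrC_of (p a b : ℕ) (h : NoUnr p) : NoUnrC p a b := fun f hf hP _ => h f hf hP

theorem tateG [Fact p.Prime] {w : Fin n → ℤ} (hreg : p ≤ 7 ∨ NoUnr p) (hS : ∀ q ∈ S, q.Prime ∧ q ≠ p) (hP : P.IsMaximal) (hpP : (p : OO ℚ) ∈ P)
    (hfin : Finite (ResidueField A)) (hpA : (p : A) ∈ maximalIdeal A) (ρ : GF ℚ →* GL (Fin n) A)
    (hρ : ∀ k : ℕ, ∀ᶠ g in nhds (1 : GF ℚ), ME (maximalIdeal A) k ((ρ g : Matrix (Fin n) (Fin n) A) - 1))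
    (hur : ∀ P' : Ideal (OO ℚ), P'.IsMaximal → (p : OO ℚ) ∉ P' → (∀ q ∈ S, (q : OO ℚ) ∉ P') →
      ∀ τ, InInertia P' τ → ρ τ = 1)
    (hres : ∀ g ∈ HH p, ∃ M : ℕ, ∀ i j,
      (((ρ g : Matrix (Fin n) (Fin n) A) - 1) ^ M) i j ∈ maximalIdeal A)
    (χ : GF ℚ →* Aˣ) (hχ : IsCyc p χ)
    (hS1 : ∀ q ∈ S, ∀ i j, w i ≤ w j → (q : ZMod p) ^ (w j - w i + 1) ≠ 1)
    (hord : ∀ τ, InInertia P τ → Shape w (χ τ) (ρ τ : Matrix (Fin n) (Fin n) A)) (g : GF ℚ) :
    Shape w (χ g) (ρ g : Matrix (Fin n) (Fin n) A) := by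
  have hp : p.Prime := Fact.out
  rcases isEmpty_or_nonempty (Fin n) with hn | ⟨⟨i0⟩⟩
  · exact ⟨fun i => hn.elim i, fun i => hn.elim i⟩
  have hreg' : NoUnr p := by
    rcases hreg with h | h
    · exact reg p hp h
    · exact h
  have hq0 : ∀ q ∈ S, (q : ZMod p) ≠ 0 := fun q hq => cast_ne_zero hp (hS q hq).1 (hS q hq).2
  -- residual cyclotomic character
  have hres1 : ∀ (g : GF ℚ) (m : ℕ), (∀ z : AlgebraicClosure ℚ, z ^ p = 1 → g z = z ^ m) → ∀ l : ℤ,
      ((χ g ^ l : Aˣ) : A) - (m : A) ^ (l % ((p : ℤ) - 1)).toNat ∈ maximalIdeal A := by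
    intro g m hm l
    have hm0 := exp_ne_zero hp hm
    have h1 : residue A (χ g : A) = (m : ResidueField A) := by
      obtain ⟨a, ha⟩ := hχ 1 m g (fun z hz => by
        rw [pow_one] at hz
        exact hm z hz)
      rw [ha, map_add, map_mul, map_pow, pow_one, map_natCast, map_natCast]
      have h2 : (p : ResidueField A) = 0 := by
        rw [← map_natCast (residue A)]
        exact (residue_eq_zero_iff _).2 hpA
      rw [h2, zero_mul, add_zero]
    have hchar : CharP (ResidueField A) p := by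
      have h2 : (p : ResidueField A) = 0 := by
        rw [← map_natCast (residue A)]
        exact (residue_eq_zero_iff _).2 hpA
      exact (CharP.charP_iff_prime_eq_zero hp).2 h2
    let φ : ZMod p →+* ResidueField A := ZMod.castHom dvd_rfl _
    have h3 : residue A ((χ g ^ l : Aˣ) : A) = φ ((m : ZMod p) ^ l) := by
      rw [map_zpow₀, map_natCast, ← h1]
      have h4 : residue A ((χ g ^ l : Aˣ) : A) = ((Units.map (residue A : A →* ResidueField A) (χ g ^ l) : (ResidueField A)ˣ) : ResidueField A) := rfl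
      rw [h4, map_zpow, Units.val_zpow_eq_zpow_val]
      rfl
    rw [← residue_eq_zero_iff, map_sub, h3, ← zpow_mod hm0, map_pow, map_pow, map_natCast, map_natCast, sub_self]
  have key := ordG (b := fun i => -w i) hp hS hP hpP hfin hpA ρ hρ hur hres
    (fun l => (zpowGroupHom (-l)).comp χ) (fun l k => by
      filter_upwards [chi_eventually hp hpA hχ k] with g hg
      have h1 : (Units.map ((Ideal.Quotient.mk (maximalIdeal A ^ k) : A →+* A ⧸ maximalIdeal A ^ k) : A →* A ⧸ maximalIdeal A ^ k) (χ g)) = 1 := by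
        apply Units.ext
        show Ideal.Quotient.mk (maximalIdeal A ^ k) (χ g : A) = 1
        rw [← sub_eq_zero, ← map_one (Ideal.Quotient.mk (maximalIdeal A ^ k)), ← map_sub]
        exact Ideal.Quotient.eq_zero_iff_mem.2 hg
      have h2 : (Units.map ((Ideal.Quotient.mk (maximalIdeal A ^ k) : A →+* A ⧸ maximalIdeal A ^ k) : A →* A ⧸ maximalIdeal A ^ k) (χ g ^ (-l))) = 1 := by
        rw [map_zpow, h1, _root_.one_zpow]
      rw [← Ideal.Quotient.eq_zero_iff_mem, map_sub, map_one, sub_eq_zero]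
      exact congrArg Units.val h2) (fun l P' hP' hpP' _ τ hτ => by
      show (χ τ) ^ (-l) = 1
      rw [chi_inertia hp hpA hχ hP' hpP' hτ, _root_.one_zpow]) (fun l => ((-l) % ((p : ℤ) - 1)).toNat)
    (fun l g m hm => hres1 g m hm (-l)) (fun τ hτ i j hij => by
      have h1 : -w j ≤ -w i := hij
      by_cases h : i = j
      · subst h
        rw [if_pos rfl, (hord τ hτ).2 i]
        show _ = ((χ τ ^ (-(-w i)) : Aˣ) : A)
        rw [neg_neg]
      · rw [if_neg h, (hord τ hτ).1 i j h (by omega)]) (fun q hq h => by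
      refine hS1 q hq i0 i0 le_rfl ?_
      rw [sub_self, zero_add, zpow_one, h]) (fun i j hij => by
      have h1 : -w j < -w i := hij
      refine ⟨noUnrC_of _ _ _ hreg', fun q hq h => ?_⟩
      simp only [neg_neg] at h
      rw [pow_succ, zpow_mod (hq0 q hq), zpow_mod (hq0 q hq)] at h
      refine hS1 q hq i j (by omega) ?_
      rw [zpow_add₀ (hq0 q hq), zpow_sub₀ (hq0 q hq), zpow_one, div_mul_eq_mul_div, ← h, div_self (zpow_ne_zero _ (hq0 q hq))]) g
  refine ⟨fun i j hij hw => ?_, fun i => ?_⟩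
  · have h1 := key i j (neg_le_neg hw)
    rw [if_neg hij] at h1
    exact h1
  · have h1 := key i i le_rfl
    rw [if_pos rfl] at h1
    rw [h1]
    show ((χ g ^ (-(-w i)) : Aˣ) : A) = _
    rw [neg_neg]

end

end Pool.Agent.K1H81.LR
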